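import Pool.Agent.R367.FS.Gal
import Pool.Agent.W401.Cheb.Main

/-!
# Locally subfields: every element of the group fixes an embedding
-/

set_option autoImplicit false

namespace Pool.Agent.R367.FS

open NumberField Module

theorem unram_of_large (K : Type) [Field K] [NumberField K] :
    ∃ B : ℕ, ∀ p : ℕ, p.Prime → B < p → Unram K p := by
  refine ⟨(discr K).natAbs, fun p hp hB P hP => ?_⟩
  have : Fact p.Prime := ⟨hp⟩
  have h1 : ¬ (p : ℤ) ∣ discr K := by
    intro h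
    have h2 := Int.natAbs_dvd_natAbs.2 h
    rw [Int.natAbs_natCast] at h2
    have h3 := Nat.le_of_dvd (Int.natAbs_pos.2 (NumberField.discr_ne_zero K)) h2
    omega
  have hpr : P.IsPrime := ((mem_above P).1 hP).1
  have h2 := (NumberField.not_dvd_discr_iff_forall_mem K (𝓞 K)
    (Nat.prime_iff_prime_int.1 hp)).1 h1 P hpr (by
      have := natCast_mem_of_above hP
      simpa using this)
  exact Ideal.ramificationIdx_eq_one P ℤ

variable {M : Type} [Field M] [NumberField M] [IsGalois ℚ M]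
variable {K F : Type} [Field K] [NumberField K] [Field F] [NumberField F]

theorem fixed_of_locSub (ιF : F →ₐ[ℚ] M) (ιK : K →ₐ[ℚ] M) (h : LocSub F K) (u : M ≃ₐ[ℚ] M)
    (hu : act u ιF = ιF) : ∃ x : K →ₐ[ℚ] M, act u x = x := by
  obtain ⟨B₁, hB₁⟩ := unram_of_large F
  obtain ⟨B₂, hB₂⟩ := unram_of_large K
  obtain ⟨p, ⟨hp, hx⟩, hpB⟩ := (W401.Cheb.infinite_frob M u).exists_gt (max B₁ B₂)
  have : Fact p.Prime := ⟨hp⟩
  have huF := hB₁ p hp (lt_of_le_of_lt (le_max_left _ _) hpB)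
  have huK := hB₂ p hp (lt_of_le_of_lt (le_max_right _ _) hpB)
  have h1 : Nat.card {φ : 𝓞 M →+* AlgebraicClosure (ZMod p) // W401.Cheb.HasFrob p φ u} ≠ 0 := by
    have h2 := hx
    unfold W401.Cheb.xp at h2
    rw [dif_pos hp] at h2
    exact h2
  obtain ⟨⟨φ, hφ⟩⟩ := (Nat.card_pos_iff.1 (Nat.pos_of_ne_zero h1)).1
  have hφ' : ∀ y : 𝓞 M, φ (u • y) = φ y ^ p := hφ
  obtain ⟨e, he1, he2⟩ := h.2 p hp huF huK
  have h3 : Function.minimalPeriod (act u) ιF = 1 :=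
    Function.minimalPeriod_eq_one_iff_isFixedPt.2 hu
  rw [period_eq ιF φ huF u hφ'] at h3
  have h4 : 1 ∈ (above F p).val.map (fun Q => Q.inertiaDeg ℤ) :=
    Multiset.mem_map.2 ⟨_, ker_mem_above (res φ ιF), h3⟩
  rw [he2, Multiset.mem_sum] at h4
  obtain ⟨P, hP, h5⟩ := h4
  obtain ⟨x, -, hx⟩ := Multiset.mem_map.1 h5
  have h6 : P.inertiaDeg ℤ = 1 := Nat.eq_one_of_mul_eq_one_right hx
  obtain ⟨j, hj⟩ := exists_emb ιK φ huK u hφ' P hP
  rw [h6, Function.minimalPeriod_eq_one_iff_isFixedPt] at hj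
  exact ⟨j, hj⟩

end Pool.Agent.R367.FS
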