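import Pool.Agent.R367.FS.Per
import Pool.Agent.R367.FS.Direct
import Pool.Agent.TH444.TW.RSK
import Pool.Agent.H391R2.T4.Abl

/-!
# The wreath product
-/

set_option autoImplicit false

namespace Pool.Agent.R367.FS

open NumberField Module

theorem natCard_emb {F M : Type} [Field F] [NumberField F] [Field M] [NumberField M]
    [IsGalois ℚ M] (ι : F →ₐ[ℚ] M) : Nat.card (F →ₐ[ℚ] M) = finrank ℚ F := by
  refine AlgHom.natCard_of_splits ℚ F M fun x => ?_
  rw [← minpoly.algHom_eq ι ι.injective x]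
  exact Normal.splits inferInstance (ι x)

/-- The group realised above `L`. -/
abbrev CC (n : ℕ) : Type := Multiplicative (Fin 3 → ZMod n)

theorem step (L : Type) [Field L] [NumberField L] [IsGalois ℚ L] (C : Type) [CommGroup C]
    [Finite C] :
    ∃ (M : Type) (_ : Field M) (_ : NumberField M) (_ : Algebra L M) (_ : IsScalarTower ℚ L M)
      (_ : IsGalois ℚ M) (ε : (M ≃ₐ[ℚ] M) ≃* (C ≀ᵣ (L ≃ₐ[ℚ] L))),
      ∀ σ, (ε σ).right = σ.restrictNormal L := by
  have hfin : Finite (RegularWreathProduct.rightHom (D := C) (Q := (L ≃ₐ[ℚ] L))).ker :=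
    inferInstance
  have h1 := (Pool.Agent.TH444.TW.ab_rs (RegularWreathProduct.rightHom (D := C)
    (Q := (L ≃ₐ[ℚ] L))) RegularWreathProduct.inl (fun w => rfl) (by
      rintro ⟨f, x⟩ ⟨f', x'⟩ hx hx'
      have hx : x = 1 := hx
      have hx' : x' = 1 := hx'
      subst hx
      subst hx'
      ext y
      · simp [mul_comm]
      · simp)).rsk (k₀ := ℚ)
  obtain ⟨M, i1, i2, i3, i4, i5, i6, γ, hγ⟩ := h1.stepSol Pool.Agent.H391R2.T4.hilb_rat L
    (MulEquiv.refl _)
  have hcz : CharZero M := charZero_of_injective_algebraMap (algebraMap ℚ M).injective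
  obtain rfl : i2 = DivisionRing.toRatAlgebra := Subsingleton.elim _ _
  have hnf : NumberField M := { to_charZero := hcz, to_finiteDimensional := i5 }
  exact ⟨M, i1, hnf, i3, i4, i6, γ, hγ⟩

/-- The numerical part of the construction. -/
theorem locSub_wreath (L : Type) [Field L] [NumberField L] [IsGalois ℚ L] (K : Type) [Field K]
    [NumberField K] (ιK : K →ₐ[ℚ] L) (U : Subgroup (L ≃ₐ[ℚ] L))
    (hU : ∀ u ∈ U, ∃ x : K →ₐ[ℚ] L, act u x = x)
    (M : Type) [Field M] [NumberField M] [Algebra L M] [IsScalarTower ℚ L M] [IsGalois ℚ M]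
    (n : ℕ) (hn : n = Nat.card (L ≃ₐ[ℚ] L))
    (C : Type) [CommGroup C] [Finite C] (hC : ∀ c : C, c ^ n = 1) (hC3 : Nat.card C = n ^ 3)
    (ε : (M ≃ₐ[ℚ] M) ≃* (C ≀ᵣ (L ≃ₐ[ℚ] L)))
    (hε : ∀ σ, (ε σ).right = σ.restrictNormal L)
    (F : Type) [Field F] [NumberField F] (ιF : F →ₐ[ℚ] M)
    (hF : ∀ σ : M ≃ₐ[ℚ] M, act σ ιF = ιF ↔ ε σ ∈ wU C U) : LocSub F K := by
  classical
  have hn0 : 0 < n := hn ▸ Nat.card_pos
  set W := C ≀ᵣ (L ≃ₐ[ℚ] L) with hW
  have hWfin : Finite W := inferInstance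
  obtain ⟨f, hf⟩ := emb_cosets ε (wU C U) ιF hF
  have hYfin : Finite (F →ₐ[ℚ] M) := Finite.of_equiv _ f.symm
  have hY : Nat.card (F →ₐ[ℚ] M) = Nat.card (W ⧸ wU C U) := Nat.card_congr f
  have hfix : ∀ γ : M ≃ₐ[ℚ] M, Nat.card {y : F →ₐ[ℚ] M // act γ y = y} =
      Nat.card {q : W ⧸ wU C U // ε γ • q = q} := by
    intro γ
    refine Nat.card_congr (f.subtypeEquiv fun y => ?_)
    rw [← hf, f.injective.eq_iff]
  have hit : ∀ (γ : M ≃ₐ[ℚ] M) (l : ℕ), Nat.card {y : F →ₐ[ℚ] M // (act γ)^[l] y = y} =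
      Nat.card {q : W ⧸ wU C U // ε (γ ^ l) • q = q} := by
    intro γ l
    rw [← hfix]
    refine Nat.card_congr (Equiv.subtypeEquivRight fun y => ?_)
    rw [act_iterate]
  -- degrees
  set m := finrank ℚ K with hm
  have hm0 : 0 < m := finrank_pos
  have hmn : m ∣ n := by
    let _ : Algebra K L := (ιK : K →+* L).toAlgebra
    have : IsScalarTower ℚ K L := IsScalarTower.of_algebraMap_eq fun x => (ιK.commutes x).symm
    rw [hn, IsGalois.card_aut_eq_finrank, ← Module.finrank_mul_finrank ℚ K L]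
    exact Dvd.intro _ rfl
  obtain ⟨k, hk⟩ := hmn
  have hcardY : Nat.card C ∣ Nat.card (F →ₐ[ℚ] M) := by
    have h1 := dvd_fix U (1 : W)
    rw [hY]
    refine h1.trans (dvd_of_eq ?_)
    exact Nat.card_congr (Equiv.subtypeUnivEquiv fun q => one_smul _ q)
  obtain ⟨t, ht⟩ := hcardY
  have hFdeg : finrank ℚ F = Nat.card (F →ₐ[ℚ] M) := (natCard_emb ιF).symm
  set r := (n * n) * (k * t) with hr
  have hFr : Nat.card (F →ₐ[ℚ] M) = r * m := by
    rw [ht, hC3, hr]
    have : n ^ 3 = n * n * n := by ring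
    rw [this]
    conv_lhs => rw [mul_assoc (n * n) n t]
    rw [mul_assoc (n * n)]
    congr 1
    conv_lhs => rw [hk]
    ring
  have hpow : ∀ γ : M ≃ₐ[ℚ] M, γ ^ (n * n) = 1 := by
    intro γ
    apply ε.injective
    rw [map_pow, map_one]
    refine pow_eq_one n (fun g => ?_) hC _
    rw [hn]
    exact pow_card_eq_one'
  have hper : ∀ (γ : M ≃ₐ[ℚ] M) (y : F →ₐ[ℚ] M), Function.minimalPeriod (act γ) y ∣ n * n := by
    intro γ y
    rw [← Function.isPeriodicPt_iff_minimalPeriod_dvd]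
    change (act γ)^[_] y = y
    rw [act_iterate, hpow]
    rfl
  refine locSub_of ιF ((IsScalarTower.toAlgHom ℚ L M).comp ιK) r (n * n) (Nat.mul_pos hn0 hn0)
    (Dvd.intro _ rfl) (by rw [hFdeg, hFr]) fun γ => ?_
  refine ⟨orderOf (γ.restrictNormal L), ?_, ?_, ?_, hper γ, ?_⟩
  · intro y
    set l := Function.minimalPeriod (act γ) y with hl
    have h1 : act (γ ^ l) y = y := by
      rw [← act_iterate]
      exact Function.isPeriodicPt_minimalPeriod (act γ) y
    obtain ⟨g, hg⟩ := fix_conj U (ε (γ ^ l)) (f y) (by rw [← hf, h1])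
    rw [hε] at hg
    obtain ⟨x₀, hx₀⟩ := hU _ hg
    refine ⟨(IsScalarTower.toAlgHom ℚ L M).comp (act g x₀), ?_⟩
    rw [← Function.isPeriodicPt_iff_minimalPeriod_dvd]
    change (act γ)^[_] _ = _
    rw [act_iterate]
    ext z
    rw [act_apply]
    change (γ ^ l) (algebraMap L M (g (x₀ z))) = algebraMap L M (g (x₀ z))
    rw [← AlgEquiv.restrictNormal_commutes]
    congr 1
    have h2 := AlgHom.congr_fun hx₀ z
    rw [act_apply] at h2
    change g⁻¹ ((γ ^ l).restrictNormal L (g (x₀ z))) = x₀ z at h2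
    conv_rhs => rw [← h2]
    exact (AlgEquiv.apply_symm_apply g _).symm
  · have h1 := bad_count (act γ) (orderOf (γ.restrictNormal L)) (n * n) (Nat.card C)
      (Nat.mul_pos hn0 hn0) (hper γ) (fun l hl => by
        rw [hit, hY]
        refine fix_le U _ ?_
        rw [hε]
        intro h2
        apply hl
        rw [orderOf_dvd_iff_pow_eq_one]
        rw [← h2]
        exact (map_pow (AlgEquiv.restrictNormalHom L) γ l).symm)
    rw [hFr, hC3] at h1
    have h2 : n ^ 3 * Nat.card {y : F →ₐ[ℚ] M // ¬ orderOf (γ.restrictNormal L) ∣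
        Function.minimalPeriod (act γ) y} ≤ n ^ 3 * r := by
      refine h1.trans ?_
      have hmn' : m ≤ n := Nat.le_of_dvd hn0 ⟨k, hk⟩
      calc n * n * (r * m) ≤ n * n * (r * n) := by gcongr
        _ = n ^ 3 * r := by ring
    exact Nat.le_of_mul_le_mul_left h2 (by positivity)
  · refine period_dvd_count (act γ) (n * n) (fun y => ?_) fun l hl => ?_
    · exact Nat.pos_of_dvd_of_pos (hper γ y) (Nat.mul_pos hn0 hn0)
    · rw [hit]
      refine Dvd.dvd.trans ?_ (dvd_fix U _)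
      rw [hC3]
      exact ⟨n, by ring⟩
  · intro x
    rw [← Function.isPeriodicPt_iff_minimalPeriod_dvd]
    change (act γ)^[_] _ = _
    rw [act_iterate]
    obtain ⟨σ, rfl⟩ := act_surj ((IsScalarTower.toAlgHom ℚ L M).comp ιK) x
    ext z
    rw [act_apply, act_apply]
    change (γ ^ _) (σ (algebraMap L M (ιK z))) = σ (algebraMap L M (ιK z))
    rw [← AlgEquiv.restrictNormal_commutes, ← AlgEquiv.restrictNormal_commutes]
    have h3 : (γ ^ orderOf (γ.restrictNormal L)).restrictNormal L = 1 := by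
      have := map_pow (AlgEquiv.restrictNormalHom L) γ (orderOf (γ.restrictNormal L))
      change (γ ^ orderOf (γ.restrictNormal L)).restrictNormal L =
        (γ.restrictNormal L) ^ orderOf (γ.restrictNormal L) at this
      rw [this, pow_orderOf_eq_one]
    rw [h3]
    rfl

end Pool.Agent.R367.FS
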