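import Mathlib

/-!
# Distributing cycles
-/

set_option autoImplicit false

namespace Pool.Agent.R367.FS

open Finset

/-- A set with `b * m` elements can be cut into `b` blocks with `m` elements. -/
theorem exists_blocks (α : Type) [Finite α] (b m : ℕ) (h : Nat.card α = b * m) :
    ∃ f : α → Fin b, ∀ k, Nat.card {a // f a = k} = m := by
  classical
  have := Fintype.ofFinite α
  rw [Nat.card_eq_fintype_card] at h
  let e : α ≃ Fin b × Fin m := (Fintype.equivFinOfCardEq h).trans finProdFinEquiv.symm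
  refine ⟨fun a => (e a).1, fun k => ?_⟩
  have e2 : {a // (e a).1 = k} ≃ Fin m :=
    { toFun := fun a => (e a.1).2
      invFun := fun i => ⟨e.symm (k, i), by simp⟩
      left_inv := fun a => by
        apply Subtype.ext
        apply e.injective
        rw [Equiv.apply_symm_apply]
        exact Prod.ext a.2.symm rfl
      right_inv := fun i => by simp }
  rw [Nat.card_congr e2, Nat.card_fin]

/-- Maps with prescribed numbers of preimages and prescribed values on a small set. -/
theorem exists_capacity {B κ : Type} [Fintype B] [Fintype κ] [DecidableEq κ] (c : κ → ℕ)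
    (hc : ∑ j, c j = Fintype.card B) (P : B → Prop) [DecidablePred P] (τ : B → κ)
    (hP : ∀ j, #{b | P b} ≤ c j) :
    ∃ π : B → κ, (∀ b, P b → π b = τ b) ∧ ∀ j, #{b | π b = j} = c j := by
  classical
  let d : κ → ℕ := fun j => c j - #{b | P b ∧ τ b = j}
  have hd : ∀ j, d j + #{b | P b ∧ τ b = j} = c j := fun j => by
    apply Nat.sub_add_cancel
    refine le_trans (card_le_card ?_) (hP j)
    intro b hb
    simp only [mem_filter, mem_univ, true_and] at hb ⊢
    exact hb.1
  have h1 : ∑ j, #{b | P b ∧ τ b = j} = #{b | P b} := by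
    rw [← card_biUnion]
    · congr 1
      ext b
      simp
    · intro i _ j _ hij
      rw [Function.onFun, disjoint_left]
      intro b hb hb'
      simp only [mem_filter, mem_univ, true_and] at hb hb'
      exact hij (hb.2.symm.trans hb'.2)
  have h2 : Fintype.card {b // ¬ P b} = Fintype.card (Σ j, Fin (d j)) := by
    rw [Fintype.card_sigma]
    simp only [Fintype.card_fin]
    have h3 : ∑ j, d j + #{b | P b} = Fintype.card B := by
      rw [← h1, ← sum_add_distrib, ← hc]
      exact sum_congr rfl fun j _ => hd j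
    have h4 : #{b | P b} + Fintype.card {b // ¬ P b} = Fintype.card B := by
      rw [Fintype.card_subtype, Finset.card_filter_add_card_filter_not, card_univ]
    omega
  let ε : {b // ¬ P b} ≃ (Σ j, Fin (d j)) := Fintype.equivOfCardEq h2
  refine ⟨fun b => if h : P b then τ b else (ε ⟨b, h⟩).1, fun b hb => dif_pos hb, fun j => ?_⟩
  rw [← hd j, add_comm]
  have h5 : ({b | (if h : P b then τ b else (ε ⟨b, h⟩).1) = j} : Finset B) =
      ({b | P b ∧ τ b = j} : Finset B) ∪ ({b | ∃ h : ¬ P b, (ε ⟨b, h⟩).1 = j} : Finset B) := by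
    ext b
    simp only [mem_filter, mem_univ, true_and, mem_union]
    by_cases h : P b
    · simp [h]
    · simp [h]
  rw [h5, card_union_of_disjoint]
  · congr 1
    rw [← Fintype.card_subtype, ← Fintype.card_fin (d j)]
    refine Fintype.card_congr ?_
    exact
      { toFun := fun b => Fin.cast (by rw [b.2.2]) (ε ⟨b.1, b.2.1⟩).2
        invFun := fun i => ⟨(ε.symm ⟨j, i⟩).1, (ε.symm ⟨j, i⟩).2, by simp⟩
        left_inv := fun b => by
          obtain ⟨b, hb, hj⟩ := b
          apply Subtype.ext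
          subst hj
          simp
        right_inv := fun i => by
          apply Fin.ext
          have h6 := ε.apply_symm_apply ⟨j, i⟩
          have h7 : ∀ x y : Σ j, Fin (d j), x = y → (x.2 : ℕ) = (y.2 : ℕ) := by
            rintro x _ rfl
            rfl
          exact h7 _ _ h6 }
  · rw [disjoint_left]
    intro b hb hb'
    simp only [mem_filter, mem_univ, true_and] at hb hb'
    obtain ⟨h, -⟩ := hb'
    exact h hb.1

/-- Distribution of the cycles of `Y` on the cycles of `X`. -/
theorem distribute {ι κ : Type} [Fintype ι] [Fintype κ] [DecidableEq κ] (s : ι → ℕ) (t : κ → ℕ)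
    (r e E : ℕ) (hE : 0 < E) (hsE : ∀ i, s i ∣ E) (hEr : E ∣ r) (hte : ∀ j, t j ∣ e)
    (ht : ∀ j, 0 < t j) (ha : ∀ i, ∃ j, t j ∣ s i)
    (hb : ∑ i with ¬ e ∣ s i, s i ≤ r) (hc : ∀ l, E ∣ ∑ i with s i = l, s i)
    (hsum : ∑ i, s i = r * ∑ j, t j) :
    ∃ π : ι → κ, (∀ i, t (π i) ∣ s i) ∧ ∀ j, ∑ i with π i = j, s i = r * t j := by
  classical
  have hs : ∀ i, 0 < s i := fun i => Nat.pos_of_dvd_of_pos (hsE i) hE
  -- blocks
  have h1 : ∀ l, ∃ b, Nat.card {i // s i = l} = b * (E / l) ∧ (b ≠ 0 → ∃ i, s i = l) := by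
    intro l
    by_cases hl : ∃ i, s i = l
    · have hl' := hl
      obtain ⟨i, hi⟩ := hl'
      have h2 := hc l
      have h3 : ∑ i with s i = l, s i = Nat.card {i // s i = l} * l := by
        rw [sum_congr rfl (g := fun _ => l) (fun i hi => (mem_filter.1 hi).2), sum_const,
          Nat.card_eq_fintype_card, Fintype.card_subtype, smul_eq_mul]
      rw [h3] at h2
      have hlE : l ∣ E := hi ▸ hsE i
      have hl0 : 0 < l := hi ▸ hs i
      obtain ⟨m, hm⟩ := hlE
      have h4 : E / l ∣ Nat.card {i // s i = l} := by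
        rw [hm, Nat.mul_div_cancel_left _ hl0]
        rw [hm, mul_comm l m] at h2
        exact Nat.dvd_of_mul_dvd_mul_right hl0 h2
      obtain ⟨b, hb'⟩ := h4
      exact ⟨b, by rw [hb', mul_comm], fun _ => hl⟩
    · refine ⟨0, ?_, fun h => absurd rfl h⟩
      have : IsEmpty {i // s i = l} := ⟨fun i => hl ⟨i.1, i.2⟩⟩
      simp
  choose b hbl hbo using h1
  choose f hf using fun l => exists_blocks {i // s i = l} (b l) (E / l) (hbl l)
  let Bt : Type := Σ l : Fin (E + 1), Fin (b l)
  have hlt : ∀ i, s i < E + 1 := fun i => Nat.lt_succ_of_le (Nat.le_of_dvd hE (hsE i))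
  let β : ι → Bt := fun i => ⟨⟨s i, hlt i⟩, f (s i) ⟨i, rfl⟩⟩
  have hβ1 : ∀ i (B : Bt), β i = B → s i = (B.1 : ℕ) := by
    rintro i _ rfl
    rfl
  -- the length of a batch occurs
  have hocc : ∀ B : Bt, ∃ i, s i = (B.1 : ℕ) := by
    rintro ⟨l, k⟩
    refine hbo l ?_
    have := k.2
    omega
  have hβ : ∀ (i : ι) (l : Fin (E + 1)) (k : Fin (b l)),
      β i = ⟨l, k⟩ ↔ ∃ h : s i = (l : ℕ), f l ⟨i, h⟩ = k := by
    intro i l k
    obtain ⟨l, hl⟩ := l
    constructor
    · intro h
      have h2 : s i = l := hβ1 i _ h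
      subst h2
      exact ⟨rfl, eq_of_heq (Sigma.mk.inj h).2⟩
    · rintro ⟨h, h2⟩
      have h : s i = l := h
      subst h
      subst h2
      rfl
  have hmass : ∀ B : Bt, ∑ i with β i = B, s i = E := by
    rintro ⟨l, k⟩
    rw [sum_congr rfl (g := fun _ => (l : ℕ)) (fun i hi => hβ1 i _ (mem_filter.1 hi).2), sum_const,
      smul_eq_mul]
    have h2 : #{i | β i = ⟨l, k⟩} = E / l := by
      rw [← hf l k, ← Fintype.card_subtype, ← Nat.card_eq_fintype_card]
      refine Nat.card_congr ?_
      exact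
        { toFun := fun i => ⟨⟨i.1, ((hβ i.1 l k).1 i.2).1⟩, ((hβ i.1 l k).1 i.2).2⟩
          invFun := fun a => ⟨a.1.1, (hβ a.1.1 l k).2 ⟨a.1.2, a.2⟩⟩
          left_inv := fun i => rfl
          right_inv := fun i => rfl }
    rw [h2]
    obtain ⟨i, hi⟩ := hocc ⟨l, k⟩
    exact Nat.div_mul_cancel (hi ▸ hsE i)
  have hall : ∑ i, s i = E * Fintype.card Bt := by
    rw [← sum_fiberwise_of_maps_to (t := univ) (g := β) (fun _ _ => mem_univ _),
      sum_congr rfl (fun B _ => hmass B), sum_const, smul_eq_mul, card_univ, mul_comm]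
  obtain ⟨m, hm⟩ := hEr
  have hcap : ∑ j, m * t j = Fintype.card Bt := by
    rw [← mul_sum]
    apply Nat.eq_of_mul_eq_mul_left hE
    rw [← mul_assoc, ← hm, ← hsum, hall]
  have hτ : ∀ B : Bt, ∃ j, t j ∣ (B.1 : ℕ) := by
    intro B
    obtain ⟨i, hi⟩ := hocc B
    obtain ⟨j, hj⟩ := ha i
    exact ⟨j, hi ▸ hj⟩
  choose τ hτ using hτ
  have hbad : #{B : Bt | ¬ e ∣ (B.1 : ℕ)} ≤ m := by
    have h2 : ∑ i with ¬ e ∣ s i, s i = E * #{B : Bt | ¬ e ∣ (B.1 : ℕ)} := by
      rw [← sum_fiberwise_of_maps_to (s := {i | ¬ e ∣ s i}) (t := {B : Bt | ¬ e ∣ (B.1 : ℕ)}) (g := β)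
        (fun i hi => ?_)]
      · rw [sum_congr rfl (g := fun _ => E) (fun B hB => ?_), sum_const, smul_eq_mul, mul_comm]
        refine Eq.trans ?_ (hmass B)
        rw [filter_filter]
        refine sum_congr (filter_congr fun i _ => ?_) fun _ _ => rfl
        constructor
        · exact fun h => h.2
        · intro h
          refine ⟨?_, h⟩
          rw [hβ1 i B h]
          exact (mem_filter.1 hB).2
      · rw [mem_filter]
        exact ⟨mem_univ _, (mem_filter.1 hi).2⟩
    rw [h2, hm] at hb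
    exact Nat.le_of_mul_le_mul_left hb hE
  obtain ⟨π, hπ1, hπ2⟩ := exists_capacity (fun j => m * t j) hcap (fun B : Bt => ¬ e ∣ (B.1 : ℕ)) τ
    (fun j => hbad.trans (Nat.le_mul_of_pos_right m (ht j)))
  refine ⟨fun i => π (β i), fun i => ?_, fun j => ?_⟩
  · by_cases h : e ∣ s i
    · exact (hte _).trans h
    · have h2 : π (β i) = τ (β i) := hπ1 (β i) h
      change t (π (β i)) ∣ s i
      rw [h2]
      exact hτ (β i)
  · rw [← sum_fiberwise_of_maps_to (s := {i | π (β i) = j}) (t := {B : Bt | π B = j}) (g := β)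
      (fun i hi => ?_)]
    · rw [sum_congr rfl (g := fun _ => E) (fun B hB => ?_), sum_const, smul_eq_mul, hπ2 j, hm]
      · ring
      · refine Eq.trans ?_ (hmass B)
        rw [filter_filter]
        refine sum_congr (filter_congr fun i _ => ?_) fun _ _ => rfl
        constructor
        · exact fun h => h.2
        · intro h
          refine ⟨?_, h⟩
          rw [h]
          exact (mem_filter.1 hB).2
    · rw [mem_filter]
      exact ⟨mem_univ _, (mem_filter.1 hi).2⟩

end Pool.Agent.R367.FS
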