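import Mathlib

/-!
# Fake subfields: definitions

Number fields are intermediate fields of `AlgebraicClosure ℚ` over `ℚ` of finite degree.
-/

set_option autoImplicit false

namespace Pool.Agent.R367.FS

open NumberField IntermediateField Module

/-- The finite set of the primes of the number field `K` above the prime number `p`. -/
noncomputable def above (K : Type) [Field K] [NumberField K] (p : ℕ) : Finset (Ideal (𝓞 K)) :=
  IsDedekindDomain.primesOverFinset (Ideal.span {(p : ℤ)}) (𝓞 K)

/-- The prime number `p` is unramified in `K`. -/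
def Unram (K : Type) [Field K] [NumberField K] (p : ℕ) : Prop :=
  ∀ P ∈ above K p, P.ramificationIdx ℤ = 1

/-- `K₂` is locally sub-`K₁`: the degree `m = [K₂ : ℚ]` divides `n = [K₁ : ℚ]`, and for every
prime number `p` unramified in both fields, there are for each prime `P` of `K₂` above `p`
positive integers `e_(P,j)` (the multiset `e P`) with sum `n/m` such that the residue degrees of
the primes of `K₁` above `p` are, counted with multiplicity, the numbers `c_P e_(P,j)`, where `c_P`
is the residue degree of `P`. -/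
def LocSub (K₁ K₂ : Type) [Field K₁] [NumberField K₁] [Field K₂] [NumberField K₂] : Prop :=
  finrank ℚ K₂ ∣ finrank ℚ K₁ ∧
  ∀ p : ℕ, p.Prime → Unram K₁ p → Unram K₂ p →
    ∃ e : Ideal (𝓞 K₂) → Multiset ℕ,
      (∀ P ∈ above K₂ p, (∀ x ∈ e P, 0 < x) ∧ (e P).sum = finrank ℚ K₁ / finrank ℚ K₂) ∧
      (above K₁ p).val.map (fun Q => Q.inertiaDeg ℤ) =
        ∑ P ∈ above K₂ p, (e P).map (fun x => P.inertiaDeg ℤ * x)

/-- `K` is a fake subfield of `F`: `K` is locally sub-`F`, but `K` is not contained in a conjugate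
of `F`. -/
def FakeSub (F K : IntermediateField ℚ (AlgebraicClosure ℚ)) [NumberField F] [NumberField K] :
    Prop :=
  LocSub F K ∧ ∀ σ : AlgebraicClosure ℚ ≃ₐ[ℚ] AlgebraicClosure ℚ,
    ¬ K ≤ F.map (σ : AlgebraicClosure ℚ →ₐ[ℚ] AlgebraicClosure ℚ)

/-- The Galois closure of `K`. -/
noncomputable abbrev GalClosure (K : IntermediateField ℚ (AlgebraicClosure ℚ)) :
    IntermediateField ℚ (AlgebraicClosure ℚ) :=
  normalClosure ℚ K (AlgebraicClosure ℚ)

/-- For Galois extensions `L ⊆ M` of `ℚ`, the extension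
`1 → Gal(M/L) → Gal(M/ℚ) → Gal(L/ℚ) → 1` given by restriction splits: there is a subgroup `H` of
`Gal(M/ℚ)` which restriction maps isomorphically onto `Gal(L/ℚ)`. -/
def SplitRes (L M : IntermediateField ℚ (AlgebraicClosure ℚ)) (hLM : L ≤ M) : Prop :=
  ∃ H : Subgroup (M ≃ₐ[ℚ] M), ∀ g : L ≃ₐ[ℚ] L, ∃! h : M ≃ₐ[ℚ] M, h ∈ H ∧
    ∀ x : L, h (IntermediateField.inclusion hLM x) = IntermediateField.inclusion hLM (g x)

/-- The extension `1 → N_F → Γ_F → Gal(Ω_K/ℚ) → 1` splits, where `Ω_K` is the Galois closure of `K`,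
`M_F` is the compositum of `Ω_K` and the Galois closure of `F`, and `Γ_F = Gal(M_F/ℚ)`. -/
def SplitExt (F K : IntermediateField ℚ (AlgebraicClosure ℚ)) : Prop :=
  SplitRes (GalClosure K) (GalClosure K ⊔ GalClosure F) le_sup_left

end Pool.Agent.R367.FS
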