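import Pool.Agent.R367.FS.Hom
import Pool.Agent.R367.FS.Comb
import Pool.Agent.W54.Cheb.Tor

/-!
# Embeddings and residue degrees
-/

set_option autoImplicit false

namespace Pool.Agent.R367.FS

open NumberField Module

/-- Extension of homomorphisms to an algebraically closed field along integral extensions. -/
theorem exists_ext' {A B k : Type} [CommRing A] [CommRing B] [Algebra A B] [Algebra.IsIntegral A B]
    (hinj : Function.Injective (algebraMap A B)) [Field k] [IsAlgClosed k] (ψ : A →+* k)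
    (hmax : (RingHom.ker ψ).IsMaximal) :
    ∃ f : B →+* k, ∀ a, f (algebraMap A B a) = ψ a := by
  obtain ⟨Q, hQ, hQP⟩ := Ideal.exists_ideal_over_maximal_of_isIntegral (S := B) (RingHom.ker ψ) (by
    rw [(RingHom.injective_iff_ker_eq_bot _).mp hinj]; exact bot_le)
  set P := RingHom.ker ψ with hP
  let _ : Field (A ⧸ P) := Ideal.Quotient.field P
  let _ : Field (B ⧸ Q) := Ideal.Quotient.field Q
  let a1 : (A ⧸ P) →+* (B ⧸ Q) := Ideal.quotientMap Q (algebraMap A B) hQP.ge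
  let _ : Algebra (A ⧸ P) (B ⧸ Q) := a1.toAlgebra
  let a2 : (A ⧸ P) →+* k := Ideal.Quotient.lift P ψ fun a ha => ha
  let _ : Algebra (A ⧸ P) k := a2.toAlgebra
  have h1 : ∀ a : A, algebraMap (A ⧸ P) (B ⧸ Q) (Ideal.Quotient.mk P a) =
      Ideal.Quotient.mk Q (algebraMap A B a) := fun a => rfl
  have h2 : ∀ a : A, algebraMap (A ⧸ P) k (Ideal.Quotient.mk P a) = ψ a := fun a => rfl
  have : Algebra.IsAlgebraic (A ⧸ P) (B ⧸ Q) := by
    constructor
    intro y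
    obtain ⟨b, rfl⟩ := Ideal.Quotient.mk_surjective y
    obtain ⟨q, hq, hq'⟩ := Algebra.IsIntegral.isIntegral (R := A) b
    apply IsIntegral.isAlgebraic
    refine ⟨q.map (Ideal.Quotient.mk P), hq.map _, ?_⟩
    rw [Polynomial.eval₂_map]
    have h3 : (algebraMap (A ⧸ P) (B ⧸ Q)).comp (Ideal.Quotient.mk P) =
        (Ideal.Quotient.mk Q).comp (algebraMap A B) := RingHom.ext h1
    rw [h3, ← Polynomial.hom_eval₂, hq', map_zero]
  let ℓ : (B ⧸ Q) →ₐ[A ⧸ P] k := IsAlgClosed.lift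
  refine ⟨(ℓ : (B ⧸ Q) →+* k).comp (Ideal.Quotient.mk Q), fun a => ?_⟩
  rw [RingHom.comp_apply, ← h1, ← h2]
  exact ℓ.commutes _

variable {M : Type} [Field M] [NumberField M] {p : ℕ} [hp : Fact p.Prime]

theorem exists_hom : Nonempty (𝓞 M →+* kk p) := by
  obtain ⟨φ₀, -⟩ := W54.ChTor.exists_ext (A := ℤ) (B := 𝓞 M) (RingHom.injective_int _) p
    (Int.castRingHom (ZMod p))
  exact ⟨φ₀⟩

theorem transitive [IsGalois ℚ M] (φ φ' : 𝓞 M →+* kk p) :
    ∃ σ : M ≃ₐ[ℚ] M, ∀ y : 𝓞 M, φ' y = φ (σ • y) := by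
  have hinvZ : ∀ b : 𝓞 M, (∀ σ : M ≃ₐ[ℚ] M, σ • b = b) → ∃ n : ℤ, (n : 𝓞 M) = b := by
    intro b hb
    have hb1 : ∀ σ : M ≃ₐ[ℚ] M, σ (b : M) = (b : M) := fun σ =>
      congrArg (algebraMap (𝓞 M) M) (hb σ)
    have hb2 : (b : M) ∈ (⊥ : IntermediateField ℚ M) :=
      (IsGalois.mem_bot_iff_fixed (F := ℚ) (E := M) (b : M)).mpr hb1
    obtain ⟨q, hq⟩ := IntermediateField.mem_bot.mp hb2
    have hint : IsIntegral ℤ q := by
      rw [← isIntegral_algebraMap_iff (algebraMap ℚ M).injective, hq]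
      exact b.2
    obtain ⟨n, hn⟩ := IsIntegrallyClosed.isIntegral_iff.mp hint
    refine ⟨n, ?_⟩
    apply RingOfIntegers.ext
    rw [← hq, ← hn]
    simp
  refine W54.ChTor.trans φ φ' fun b hb => ?_
  obtain ⟨n, rfl⟩ := hinvZ b hb
  rw [map_intCast, map_intCast]

theorem exists_frob [IsGalois ℚ M] (φ : 𝓞 M →+* kk p) :
    ∃ σ : M ≃ₐ[ℚ] M, ∀ y : 𝓞 M, φ (σ • y) = φ y ^ p := by
  obtain ⟨σ, hσ⟩ := transitive φ (fr φ)
  exact ⟨σ, fun y => (hσ y).symm⟩

variable {K : Type} [Field K] [NumberField K]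

/-- the action of the Galois group of `M` on the embeddings of `K` in `M` -/
def act (γ : M ≃ₐ[ℚ] M) (j : K →ₐ[ℚ] M) : K →ₐ[ℚ] M := (γ : M →ₐ[ℚ] M).comp j

theorem act_apply (γ : M ≃ₐ[ℚ] M) (j : K →ₐ[ℚ] M) (x : K) : act γ j x = γ (j x) := rfl

theorem act_iterate (γ : M ≃ₐ[ℚ] M) (j : K →ₐ[ℚ] M) (n : ℕ) : (act γ)^[n] j = act (γ ^ n) j := by
  induction n with
  | zero => rfl
  | succ n ih =>
    rw [Function.iterate_succ_apply', ih, pow_succ']
    rfl

/-- restriction of a homomorphism along an embedding -/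
noncomputable def res (φ : 𝓞 M →+* kk p) (j : K →ₐ[ℚ] M) : 𝓞 K →+* kk p :=
  φ.comp (RingOfIntegers.mapRingHom (j : K →+* M))

theorem res_apply (φ : 𝓞 M →+* kk p) (j : K →ₐ[ℚ] M) (x : 𝓞 K) :
    res φ j x = φ (RingOfIntegers.mapRingHom (j : K →+* M) x) := rfl

theorem smul_map (γ : M ≃ₐ[ℚ] M) (j : K →ₐ[ℚ] M) (x : 𝓞 K) :
    γ • (RingOfIntegers.mapRingHom (j : K →+* M) x) =
      RingOfIntegers.mapRingHom ((act γ j : K →ₐ[ℚ] M) : K →+* M) x := by
  apply RingOfIntegers.ext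
  rfl

theorem res_surj [IsGalois ℚ M] (ι : K →ₐ[ℚ] M) (φ : 𝓞 M →+* kk p) :
    Function.Surjective (res φ : (K →ₐ[ℚ] M) → (𝓞 K →+* kk p)) := by
  intro ψ
  let _ : Algebra K M := (ι : K →+* M).toAlgebra
  have hinj : Function.Injective (algebraMap (𝓞 K) (𝓞 M)) := RingOfIntegers.algebraMap.injective K M
  obtain ⟨f, hf⟩ := exists_ext' hinj ψ (liesOver_max (ker_mem_above ψ))
  obtain ⟨σ, hσ⟩ := transitive φ f
  refine ⟨act σ ι, ?_⟩
  ext x
  rw [res_apply, ← smul_map, ← hσ, ← hf]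
  rfl

theorem res_bij [IsGalois ℚ M] (ι : K →ₐ[ℚ] M) (φ : 𝓞 M →+* kk p) (hu : Unram K p) :
    Function.Bijective (res φ : (K →ₐ[ℚ] M) → (𝓞 K →+* kk p)) := by
  refine (res_surj ι φ).bijective_of_nat_card_le ?_
  rw [card_hom_of_unram hu]
  exact card_algHom_le_finrank ℚ K M

theorem res_act (φ : 𝓞 M →+* kk p) (σ : M ≃ₐ[ℚ] M) (hσ : ∀ y : 𝓞 M, φ (σ • y) = φ y ^ p)
    (j : K →ₐ[ℚ] M) : res φ (act σ j) = fr (res φ j) := by
  ext x
  rw [res_apply, ← smul_map, hσ]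
  rfl

theorem period_eq [IsGalois ℚ M] (ι : K →ₐ[ℚ] M) (φ : 𝓞 M →+* kk p) (hu : Unram K p)
    (σ : M ≃ₐ[ℚ] M) (hσ : ∀ y : 𝓞 M, φ (σ • y) = φ y ^ p) (j : K →ₐ[ℚ] M) :
    Function.minimalPeriod (act σ) j = (RingHom.ker (res φ j)).inertiaDeg ℤ := by
  rw [← (residue _ (ker_mem_above (res φ j))).2 _ rfl]
  have hinj := (res_bij ι φ hu).1
  have h1 : ∀ n, res φ ((act σ)^[n] j) = fr^[n] (res φ j) := by
    intro n
    induction n with
    | zero => rfl
    | succ n ih => rw [Function.iterate_succ_apply', Function.iterate_succ_apply', res_act φ σ hσ, ih]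
  apply Nat.dvd_antisymm
  · rw [← Function.isPeriodicPt_iff_minimalPeriod_dvd]
    change (act σ)^[_] j = j
    apply hinj
    rw [h1]
    exact Function.isPeriodicPt_minimalPeriod _ _
  · rw [← Function.isPeriodicPt_iff_minimalPeriod_dvd]
    change fr^[_] (res φ j) = res φ j
    rw [← h1]
    exact congrArg _ (Function.isPeriodicPt_minimalPeriod _ _)

/-- counting embeddings by their periods -/
theorem count_emb [IsGalois ℚ M] (ι : K →ₐ[ℚ] M) (φ : 𝓞 M →+* kk p) (hu : Unram K p)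
    (σ : M ≃ₐ[ℚ] M) (hσ : ∀ y : 𝓞 M, φ (σ • y) = φ y ^ p) (Q : ℕ → Prop) [DecidablePred Q] :
    Nat.card {j : K →ₐ[ℚ] M // Q (Function.minimalPeriod (act σ) j)} =
      ∑ P ∈ above K p with Q (P.inertiaDeg ℤ), P.inertiaDeg ℤ := by
  rw [← count_hom (K := K) (p := p) (fun P => Q (P.inertiaDeg ℤ))]
  refine Nat.card_congr ((Equiv.ofBijective _ (res_bij ι φ hu)).subtypeEquiv fun j => ?_)
  rw [period_eq ι φ hu σ hσ]
  rfl

theorem exists_emb [IsGalois ℚ M] (ι : K →ₐ[ℚ] M) (φ : 𝓞 M →+* kk p) (hu : Unram K p)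
    (σ : M ≃ₐ[ℚ] M) (hσ : ∀ y : 𝓞 M, φ (σ • y) = φ y ^ p) (P : Ideal (𝓞 K))
    (hP : P ∈ above K p) : ∃ j : K →ₐ[ℚ] M, Function.minimalPeriod (act σ) j = P.inertiaDeg ℤ := by
  have h1 := (residue P hP).1
  have hpr := ((mem_above P).1 hP).1
  have h2 : 0 < P.inertiaDeg ℤ := Ideal.inertiaDeg_pos P ℤ
  rw [← h1] at h2
  obtain ⟨⟨ψ, hψ⟩⟩ := (Nat.card_pos_iff.1 h2).1
  obtain ⟨j, hj⟩ := (res_bij ι φ hu).2 ψ
  refine ⟨j, ?_⟩
  rw [period_eq ι φ hu σ hσ, hj, hψ]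

/-- From the cycles of the Galois action to `LocSub`. -/
theorem locSub_of {F : Type} [Field F] [NumberField F] [IsGalois ℚ M] (ιF : F →ₐ[ℚ] M)
    (ιK : K →ₐ[ℚ] M) (r E : ℕ) (hE : 0 < E) (hEr : E ∣ r) (hr : finrank ℚ F = r * finrank ℚ K)
    (h : ∀ γ : M ≃ₐ[ℚ] M, ∃ e : ℕ,
      (∀ y : F →ₐ[ℚ] M, ∃ x : K →ₐ[ℚ] M,
        Function.minimalPeriod (act γ) x ∣ Function.minimalPeriod (act γ) y) ∧
      Nat.card {y : F →ₐ[ℚ] M // ¬ e ∣ Function.minimalPeriod (act γ) y} ≤ r ∧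
      (∀ l, E ∣ Nat.card {y : F →ₐ[ℚ] M // Function.minimalPeriod (act γ) y = l}) ∧
      (∀ y : F →ₐ[ℚ] M, Function.minimalPeriod (act γ) y ∣ E) ∧
      ∀ x : K →ₐ[ℚ] M, Function.minimalPeriod (act γ) x ∣ e) :
    LocSub F K := by
  classical
  refine ⟨⟨r, by rw [hr, mul_comm]⟩, fun p hpp huF huK => ?_⟩
  have : Fact p.Prime := ⟨hpp⟩
  obtain ⟨φ⟩ := exists_hom (M := M) (p := p)
  obtain ⟨σ, hσ⟩ := exists_frob φ
  obtain ⟨e, h1, h2, h3, h4, h5⟩ := h σ
  rw [count_emb ιF φ huF σ hσ (fun l => ¬ e ∣ l)] at h2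
  have h3' : ∀ l, E ∣ ∑ P ∈ above F p with P.inertiaDeg ℤ = l, P.inertiaDeg ℤ := fun l => by
    rw [← count_emb ιF φ huF σ hσ (fun m => m = l)]
    exact h3 l
  have hsum : ∀ (L : Type) [Field L] [NumberField L] (ι : L →ₐ[ℚ] M) (hu : Unram L p),
      ∑ P ∈ above L p, P.inertiaDeg ℤ = finrank ℚ L := by
    intro L _ _ ι hu
    rw [← card_hom_of_unram hu]
    have h6 := count_hom (K := L) (p := p) (fun _ => True)
    rw [Finset.filter_true] at h6
    rw [← h6]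
    exact Nat.card_congr (Equiv.subtypeUnivEquiv fun _ => trivial)
  have key := distribute (ι := above F p) (κ := above K p) (fun P => P.1.inertiaDeg ℤ)
    (fun P => P.1.inertiaDeg ℤ) r e E hE ?_ hEr ?_ ?_ ?_ ?_ ?_ ?_
  · obtain ⟨π, hπ1, hπ2⟩ := key
    have hKpos : 0 < finrank ℚ K := finrank_pos
    have hfpos : ∀ P ∈ above K p, 0 < P.inertiaDeg ℤ := fun P hP => by
      have hpr := ((mem_above P).1 hP).1
      exact Ideal.inertiaDeg_pos P ℤ
    have hfpos' : ∀ P ∈ above F p, 0 < P.inertiaDeg ℤ := fun P hP => by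
      have hpr := ((mem_above P).1 hP).1
      exact Ideal.inertiaDeg_pos P ℤ
    refine ⟨fun P => (Finset.univ.filter (fun Q : above F p => (π Q).1 = P)).val.map
      (fun Q => Q.1.inertiaDeg ℤ / P.inertiaDeg ℤ), fun P hP => ⟨?_, ?_⟩, ?_⟩
    · intro x hx
      obtain ⟨Q, hQ, rfl⟩ := Multiset.mem_map.1 hx
      have hQ' : (π Q).1 = P := (Finset.mem_filter.1 (show Q ∈ Finset.univ.filter
        (fun Q : above F p => (π Q).1 = P) from hQ)).2
      refine Nat.div_pos (Nat.le_of_dvd (hfpos' Q.1 Q.2) ?_) (hfpos P hP)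
      rw [← hQ']
      exact hπ1 Q
    · change ∑ Q : above F p with (π Q).1 = P, Q.1.inertiaDeg ℤ / P.inertiaDeg ℤ = _
      rw [hr, Nat.mul_div_cancel _ hKpos]
      apply Nat.eq_of_mul_eq_mul_right (hfpos P hP)
      rw [Finset.sum_mul, ← hπ2 ⟨P, hP⟩]
      refine Finset.sum_congr (Finset.filter_congr fun Q _ => ?_) fun Q hQ => ?_
      · exact ⟨fun h => Subtype.ext h, fun h => by rw [h]⟩
      · apply Nat.div_mul_cancel
        have h9 := hπ1 Q
        rw [(Finset.mem_filter.1 hQ).2] at h9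
        exact h9
    · have hms : ∀ (α : Type) (s : Finset α) (f : α → ℕ),
          s.val.map f = ∑ Q ∈ s, ({f Q} : Multiset ℕ) := by
        intro α s f
        rw [← Multiset.sum_map_singleton (s.val.map f), Multiset.map_map]
        rfl
      have h8 : ∀ P ∈ above K p, ((Finset.univ.filter (fun Q : above F p => (π Q).1 = P)).val.map
          (fun Q => Q.1.inertiaDeg ℤ / P.inertiaDeg ℤ)).map (fun x => P.inertiaDeg ℤ * x) =
          ∑ Q : above F p with (π Q).1 = P, ({Q.1.inertiaDeg ℤ} : Multiset ℕ) := by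
        intro P hP
        rw [Multiset.map_map, ← hms]
        refine Multiset.map_congr rfl fun Q hQ => ?_
        have hQ' : (π Q).1 = P := (Finset.mem_filter.1 (show Q ∈ Finset.univ.filter
          (fun Q : above F p => (π Q).1 = P) from hQ)).2
        change P.inertiaDeg ℤ * (Q.1.inertiaDeg ℤ / P.inertiaDeg ℤ) = _
        apply Nat.mul_div_cancel'
        rw [← hQ']
        exact hπ1 Q
      rw [Finset.sum_congr rfl h8, Finset.sum_fiberwise_of_maps_to (fun Q _ => (π Q).2), hms,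
        ← Finset.sum_coe_sort (above F p)]
  · intro P
    obtain ⟨j, hj⟩ := exists_emb ιF φ huF σ hσ P.1 P.2
    rw [← hj]
    exact h4 j
  · intro P
    obtain ⟨j, hj⟩ := exists_emb ιK φ huK σ hσ P.1 P.2
    rw [← hj]
    exact h5 j
  · intro P
    have hpr := ((mem_above P.1).1 P.2).1
    exact Ideal.inertiaDeg_pos P.1 ℤ
  · intro P
    obtain ⟨y, hy⟩ := exists_emb ιF φ huF σ hσ P.1 P.2
    obtain ⟨x, hx⟩ := h1 y
    refine ⟨⟨_, ker_mem_above (res φ x)⟩, ?_⟩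
    rw [← hy, ← period_eq ιK φ huK σ hσ]
    exact hx
  · rw [Finset.sum_filter] at h2 ⊢
    rw [← Finset.sum_coe_sort (above F p)] at h2
    exact h2
  · intro l
    have h9 := h3' l
    rw [Finset.sum_filter] at h9 ⊢
    rw [← Finset.sum_coe_sort (above F p)] at h9
    exact h9
  · rw [Finset.sum_coe_sort (above F p) (fun P => P.inertiaDeg ℤ),
      Finset.sum_coe_sort (above K p) (fun P => P.inertiaDeg ℤ), hsum F ιF huF, hsum K ιK huK, hr]

end Pool.Agent.R367.FS
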