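import Pool.Agent.R367.FS.Defs

/-!
# Homomorphisms of rings of integers to the algebraic closure of `F_p`
-/

set_option autoImplicit false

namespace Pool.Agent.R367.FS

open NumberField Module

variable {K : Type} [Field K] [NumberField K] {p : ℕ} [hp : Fact p.Prime]

/-- the algebraic closure of `F_p` -/
abbrev kk (p : ℕ) [Fact p.Prime] : Type := AlgebraicClosure (ZMod p)

/-- Composition with the Frobenius. -/
noncomputable def fr (ψ : 𝓞 K →+* kk p) : 𝓞 K →+* kk p := (frobenius (kk p) p).comp ψ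

theorem fr_apply (ψ : 𝓞 K →+* kk p) (x : 𝓞 K) : fr ψ x = ψ x ^ p := rfl

theorem fr_iterate (ψ : 𝓞 K →+* kk p) (n : ℕ) (x : 𝓞 K) : (fr^[n] ψ) x = ψ x ^ p ^ n := by
  induction n with
  | zero => simp
  | succ n ih =>
    rw [Function.iterate_succ_apply', fr_apply, ih, ← pow_mul, pow_succ]

theorem mem_above (P : Ideal (𝓞 K)) :
    P ∈ above K p ↔ P.IsPrime ∧ P.LiesOver (Ideal.span {(p : ℤ)}) := by
  have h : (Ideal.span {(p : ℤ)}) ≠ ⊥ := by
    simp [hp.out.ne_zero]
  have : (Ideal.span {(p : ℤ)}).IsMaximal := by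
    have h1 : (Ideal.span {(p : ℤ)}).IsPrime := by
      rw [Ideal.span_singleton_prime (by exact_mod_cast hp.out.ne_zero)]
      exact Nat.prime_iff_prime_int.1 hp.out
    exact h1.isMaximal h
  exact IsDedekindDomain.mem_primesOverFinset_iff h _

theorem natCast_mem_of_above {P : Ideal (𝓞 K)} (hP : P ∈ above K p) : (p : 𝓞 K) ∈ P := by
  rw [mem_above] at hP
  have h1 := hP.2.over
  have h2 : (p : ℤ) ∈ P.under ℤ := by
    rw [← h1]
    exact Ideal.mem_span_singleton_self _
  simpa [Ideal.under, Ideal.mem_comap] using h2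

theorem ker_mem_above (ψ : 𝓞 K →+* kk p) : RingHom.ker ψ ∈ above K p := by
  rw [mem_above]
  refine ⟨RingHom.ker_isPrime ψ, ⟨?_⟩⟩
  ext z
  rw [Ideal.under, Ideal.mem_comap, RingHom.mem_ker, Ideal.mem_span_singleton]
  rw [← CharP.intCast_eq_zero_iff (kk p) p z]
  simp

theorem liesOver_max {P : Ideal (𝓞 K)} (hP : P ∈ above K p) : P.IsMaximal := by
  rw [mem_above] at hP
  have := hP.1
  have h2 := hP.2.over
  refine this.isMaximal ?_
  rintro rfl
  have h3 : (p : ℤ) ∈ (⊥ : Ideal (𝓞 K)).under ℤ := by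
    rw [← h2]
    exact Ideal.mem_span_singleton_self _
  have h4 : (p : 𝓞 K) = 0 := by simpa [Ideal.under, Ideal.mem_comap] using h3
  exact hp.out.ne_zero (by exact_mod_cast h4)

/-- the number of homomorphisms with a given kernel, and their period under Frobenius -/
theorem residue (P : Ideal (𝓞 K)) (hP : P ∈ above K p) :
    Nat.card {ψ : 𝓞 K →+* kk p // RingHom.ker ψ = P} = P.inertiaDeg ℤ ∧
    ∀ ψ : 𝓞 K →+* kk p, RingHom.ker ψ = P →
      Function.minimalPeriod fr ψ = P.inertiaDeg ℤ := by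
  classical
  have hmax : P.IsMaximal := liesOver_max hP
  have hpr : P.IsPrime := ((mem_above P).1 hP).1
  have hlo : P.LiesOver (Ideal.span {(p : ℤ)}) := ((mem_above P).1 hP).2
  let _ : Field (𝓞 K ⧸ P) := Ideal.Quotient.field P
  have hpP := natCast_mem_of_above hP
  have hchar : CharP (𝓞 K ⧸ P) p := by
    refine (CharP.charP_iff_prime_eq_zero hp.out).2 ?_
    rw [← map_natCast (Ideal.Quotient.mk P)]
    exact Ideal.Quotient.eq_zero_iff_mem.2 hpP
  let _ : Algebra (ZMod p) (𝓞 K ⧸ P) := ZMod.algebra _ p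
  have hcard : p ^ P.inertiaDeg ℤ = Nat.card (𝓞 K ⧸ P) := by
    rw [Ideal.pow_inertiaDeg p P, Ideal.absNorm_apply, Submodule.cardQuot_apply]
  have hfin : Finite (𝓞 K ⧸ P) := by
    apply Nat.finite_of_card_ne_zero
    rw [← hcard]
    exact pow_ne_zero _ hp.out.ne_zero
  have hrank : finrank (ZMod p) (𝓞 K ⧸ P) = P.inertiaDeg ℤ := by
    have h1 : Nat.card (𝓞 K ⧸ P) = Nat.card (ZMod p) ^ finrank (ZMod p) (𝓞 K ⧸ P) :=
      Module.natCard_eq_pow_finrank
    rw [← hcard, Nat.card_zmod] at h1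
    exact (Nat.pow_right_injective hp.out.two_le h1).symm
  refine ⟨?_, ?_⟩
  · have e : {ψ : 𝓞 K →+* kk p // RingHom.ker ψ = P} ≃ ((𝓞 K ⧸ P) →ₐ[ZMod p] kk p) :=
      { toFun := fun ψ =>
          { (Ideal.Quotient.lift P ψ.1 (fun a ha => by
              rw [← RingHom.mem_ker, ψ.2]; exact ha)) with
            commutes' := fun r => by
              have hz : ∀ a ∈ P, ψ.1 a = 0 := fun a ha => by
                rw [← RingHom.mem_ker, ψ.2]; exact ha
              exact RingHom.congr_fun (RingHom.ext_zmod ((Ideal.Quotient.lift P ψ.1 hz).comp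
                (algebraMap (ZMod p) (𝓞 K ⧸ P))) (algebraMap (ZMod p) (kk p))) r }
        invFun := fun f => ⟨(f : (𝓞 K ⧸ P) →+* kk p).comp (Ideal.Quotient.mk P), by
          ext x
          rw [RingHom.mem_ker, RingHom.comp_apply, map_eq_zero_iff _ (RingHom.injective _),
            Ideal.Quotient.eq_zero_iff_mem]⟩
        left_inv := fun ψ => by
          apply Subtype.ext
          ext x
          rfl
        right_inv := fun f => by
          apply AlgHom.ext
          intro y
          obtain ⟨x, rfl⟩ := Ideal.Quotient.mk_surjective y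
          rfl }
    rw [Nat.card_congr e, ← hrank]
    exact AlgHom.natCard_of_splits (ZMod p) (𝓞 K ⧸ P) (kk p) fun _ => IsAlgClosed.splits _
  · rintro ψ hψ
    have key : ∀ l, Function.IsPeriodicPt fr l ψ ↔ P.inertiaDeg ℤ ∣ l := by
      intro l
      rw [← hrank, ← FiniteField.orderOf_frobeniusAlgHom (ZMod p) (𝓞 K ⧸ P), orderOf_dvd_iff_pow_eq_one]
      constructor
      · intro h
        apply AlgHom.ext
        intro y
        obtain ⟨x, rfl⟩ := Ideal.Quotient.mk_surjective y
        rw [AlgHom.coe_pow, FiniteField.coe_frobeniusAlgHom, pow_iterate, AlgHom.one_apply]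
        have h1 := RingHom.congr_fun h x
        rw [fr_iterate, ← map_pow] at h1
        change (Ideal.Quotient.mk P x) ^ _ = _
        rw [ZMod.card, ← map_pow, Ideal.Quotient.eq, ← hψ, RingHom.mem_ker, map_sub, h1, sub_self]
      · intro h
        change fr^[l] ψ = ψ
        apply RingHom.ext
        intro x
        have h1 := AlgHom.congr_fun h (Ideal.Quotient.mk P x)
        rw [AlgHom.coe_pow, FiniteField.coe_frobeniusAlgHom, pow_iterate, AlgHom.one_apply] at h1
        change (Ideal.Quotient.mk P x) ^ _ = _ at h1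
        rw [ZMod.card, ← map_pow, Ideal.Quotient.eq, ← hψ, RingHom.mem_ker, map_sub, sub_eq_zero,
          map_pow] at h1
        rw [fr_iterate, h1]
    apply Nat.dvd_antisymm
    · rw [← Function.isPeriodicPt_iff_minimalPeriod_dvd, key]
    · rw [← key]
      exact Function.isPeriodicPt_minimalPeriod _ _

theorem finite_hom : Finite (𝓞 K →+* kk p) := by
  classical
  have h1 : ∀ P : above K p, Finite {ψ : 𝓞 K →+* kk p // RingHom.ker ψ = P.1} := by
    intro P
    apply Nat.finite_of_card_ne_zero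
    rw [(residue P.1 P.2).1]
    have := ((mem_above P.1).1 P.2).1
    exact (Ideal.inertiaDeg_pos P.1 ℤ).ne'
  refine Finite.of_injective (β := Σ P : above K p, {ψ : 𝓞 K →+* kk p // RingHom.ker ψ = P.1})
    (fun ψ => ⟨⟨RingHom.ker ψ, ker_mem_above ψ⟩, ⟨ψ, rfl⟩⟩) ?_
  intro ψ ψ' h
  have h2 : ∀ x y : (Σ P : above K p, {ψ : 𝓞 K →+* kk p // RingHom.ker ψ = P.1}), x = y →
      x.2.1 = y.2.1 := by rintro x _ rfl; rfl
  exact h2 _ _ h

/-- counting homomorphisms with a property of the kernel -/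
theorem count_hom (Q : Ideal (𝓞 K) → Prop) [DecidablePred Q] :
    Nat.card {ψ : 𝓞 K →+* kk p // Q (RingHom.ker ψ)} =
      ∑ P ∈ (above K p) with Q P, P.inertiaDeg ℤ := by
  classical
  have hf := finite_hom (K := K) (p := p)
  have := Fintype.ofFinite (𝓞 K →+* kk p)
  rw [Nat.card_eq_fintype_card, Fintype.card_subtype]
  rw [Finset.card_eq_sum_card_fiberwise (f := fun ψ : 𝓞 K →+* kk p => RingHom.ker ψ)
    (t := (above K p).filter Q)]
  · refine Finset.sum_congr rfl fun P hP => ?_
    rw [← (residue P (Finset.mem_filter.1 hP).1).1, Nat.card_eq_fintype_card,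
      Fintype.card_subtype, Finset.filter_filter]
    congr 1
    refine Finset.filter_congr fun ψ _ => ?_
    constructor
    · exact fun h => h.2
    · intro h
      exact ⟨by rw [h]; exact (Finset.mem_filter.1 hP).2, h⟩
  · intro ψ hψ
    have h1 := (Finset.mem_filter.1 hψ).2
    exact Finset.mem_coe.2 (Finset.mem_filter.2 ⟨ker_mem_above ψ, h1⟩)

theorem card_hom_of_unram (h : Unram K p) : Nat.card (𝓞 K →+* kk p) = finrank ℚ K := by
  classical
  have h1 := count_hom (K := K) (p := p) (fun _ => True)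
  have h2 : Nat.card {ψ : 𝓞 K →+* kk p // True} = Nat.card (𝓞 K →+* kk p) :=
    Nat.card_congr (Equiv.subtypeUnivEquiv fun _ => trivial)
  rw [h2] at h1
  rw [h1]
  have hbot : (Ideal.span {(p : ℤ)}) ≠ ⊥ := by
    simp [hp.out.ne_zero]
  have hmax : (Ideal.span {(p : ℤ)}).IsMaximal := by
    have h1 : (Ideal.span {(p : ℤ)}).IsPrime := by
      rw [Ideal.span_singleton_prime (by exact_mod_cast hp.out.ne_zero)]
      exact Nat.prime_iff_prime_int.1 hp.out
    exact h1.isMaximal hbot
  have h3 := Ideal.sum_ramification_inertia (R := ℤ) (𝓞 K) ℚ K (p := Ideal.span {(p : ℤ)}) hbot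
  rw [← h3, Finset.filter_true]
  refine Finset.sum_congr rfl fun P hP => ?_
  · have hP' : P ∈ above K p := hP
    have hpr : P.IsPrime := ((mem_above P).1 hP').1
    have hlo : P.LiesOver (Ideal.span {(p : ℤ)}) := ((mem_above P).1 hP').2
    have hmP : P.IsMaximal := liesOver_max hP'
    rw [Ideal.inertiaDeg'_eq_inertiaDeg, Ideal.ramificationIdx'_eq_ramificationIdx _ _ hbot, h P hP',
      one_mul]

end Pool.Agent.R367.FS
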