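import Pool.Agent.R367.FS.Asm

/-!
# Every fake subfield is one with split extension
-/

set_option autoImplicit false

namespace Pool.Agent.R367.FS

open NumberField Module IntermediateField

instance isAlgebraic_qb : Algebra.IsAlgebraic ℚ (AlgebraicClosure ℚ) :=
  AlgebraicClosure.isAlgebraic ℚ

instance isAlgClosure_qb : IsAlgClosure ℚ (AlgebraicClosure ℚ) := ⟨inferInstance, inferInstance⟩

instance normal_qb : Normal ℚ (AlgebraicClosure ℚ) := IsAlgClosure.normal ℚ _

instance isGalois_qb : IsGalois ℚ (AlgebraicClosure ℚ) := ⟨⟩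

variable (K F : IntermediateField ℚ (AlgebraicClosure ℚ)) [NumberField K] [NumberField F]

theorem nf_of_fd (L : IntermediateField ℚ (AlgebraicClosure ℚ)) [FiniteDimensional ℚ L] :
    NumberField L where
  to_charZero := inferInstance
  to_finiteDimensional := inferInstance

instance galClosure_fd : FiniteDimensional ℚ (GalClosure K) :=
  normalClosure.is_finiteDimensional ℚ K _

instance galClosure_nf : NumberField (GalClosure K) := nf_of_fd _

instance galClosure_gal : IsGalois ℚ (GalClosure K) := IsGalois.normalClosure ℚ K _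

theorem le_galClosure : K ≤ GalClosure K := le_normalClosure K

/-- embeddings of `K` go to the Galois closure -/
theorem emb_mem (x : K →ₐ[ℚ] AlgebraicClosure ℚ) (z : K) : x z ∈ GalClosure K :=
  x.fieldRange_le_normalClosure ⟨z, rfl⟩

/-- the elements of `Gal(Ω_K/ℚ)` which extend to automorphisms fixing `F` -/
def imU : Subgroup (GalClosure K ≃ₐ[ℚ] GalClosure K) where
  carrier := {g | ∃ σ : AlgebraicClosure ℚ ≃ₐ[ℚ] AlgebraicClosure ℚ, (∀ x ∈ F, σ x = x) ∧
    ∀ x : GalClosure K, ((g x : GalClosure K) : AlgebraicClosure ℚ) = σ x}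
  mul_mem' := by
    rintro a b ⟨σ, h1, h2⟩ ⟨τ, h3, h4⟩
    refine ⟨σ * τ, fun x hx => ?_, fun x => ?_⟩
    · rw [AlgEquiv.mul_apply, h3 x hx, h1 x hx]
    · rw [AlgEquiv.mul_apply, AlgEquiv.mul_apply, h2, h4]
  one_mem' := ⟨1, fun _ _ => rfl, fun _ => rfl⟩
  inv_mem' := by
    rintro a ⟨σ, h1, h2⟩
    refine ⟨σ⁻¹, fun x hx => ?_, fun x => ?_⟩
    · conv_lhs => rw [← h1 x hx]
      exact AlgEquiv.symm_apply_apply _ _
    · apply σ.injective
      rw [← h2]
      have h3 : a (a⁻¹ x) = x := AlgEquiv.apply_symm_apply _ _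
      have h4 : σ (σ⁻¹ (x : AlgebraicClosure ℚ)) = x := AlgEquiv.apply_symm_apply _ _
      rw [h3, h4]

theorem fixed_pt (h : LocSub F K) :
    ∀ u ∈ imU K F, ∃ x : K →ₐ[ℚ] GalClosure K, act u x = x := by
  rintro u ⟨σ, hσ1, hσ2⟩
  set M := GalClosure K ⊔ GalClosure F with hM
  have hfd : FiniteDimensional ℚ M := finiteDimensional_sup _ _
  have hnf : NumberField M := nf_of_fd _
  have hnor : Normal ℚ M := normal_sup ..
  have hgal : IsGalois ℚ M := ⟨⟩
  have hKM : K ≤ M := (le_galClosure K).trans le_sup_left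
  have hFM : F ≤ M := (le_galClosure F).trans le_sup_right
  obtain ⟨x, hx⟩ := fixed_of_locSub (M := M) (inclusion hFM) (inclusion hKM) h
    (σ.restrictNormal M) (by
      ext z
      have h1 := AlgEquiv.restrictNormal_commutes σ M (inclusion hFM z)
      exact h1.trans (hσ1 z z.2))
  have hxK : ∀ z : K, ((x z : M) : AlgebraicClosure ℚ) ∈ GalClosure K := fun z =>
    emb_mem K (M.val.comp x) z
  let x' : K →ₐ[ℚ] GalClosure K := (M.val.comp x).codRestrict _ hxK
  refine ⟨x', ?_⟩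
  ext z
  have h1 := AlgEquiv.restrictNormal_commutes σ M (x z)
  have h2 := congrArg (fun y : M => (y : AlgebraicClosure ℚ)) (AlgHom.congr_fun hx z)
  exact (hσ2 (x' z)).trans (h1.symm.trans h2)

theorem no_common_pt (h : ∀ σ : AlgebraicClosure ℚ ≃ₐ[ℚ] AlgebraicClosure ℚ,
    ¬ K ≤ F.map (σ : AlgebraicClosure ℚ →ₐ[ℚ] AlgebraicClosure ℚ))
    (x : K →ₐ[ℚ] GalClosure K) (hx : ∀ u ∈ imU K F, act u x = x) : False := by
  have h1 : ∀ z : K, ((x z : GalClosure K) : AlgebraicClosure ℚ) ∈ F := by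
    intro z
    rw [← InfiniteGalois.fixedField_fixingSubgroup F, mem_fixedField_iff]
    intro σ hσ
    have hσ' : ∀ x ∈ F, σ x = x := fun x hx => (mem_fixingSubgroup_iff F σ).1 hσ x hx
    have h2 := hx (σ.restrictNormal (GalClosure K)) ⟨σ, hσ', fun y =>
      AlgEquiv.restrictNormal_commutes σ (GalClosure K) y⟩
    have h3 := congrArg (fun y : GalClosure K => (y : AlgebraicClosure ℚ)) (AlgHom.congr_fun h2 z)
    exact (AlgEquiv.restrictNormal_commutes σ (GalClosure K) (x z)).symm.trans h3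
  let e : K ≃ₐ[ℚ] ((GalClosure K).val.comp x).fieldRange :=
    AlgEquiv.ofInjectiveField ((GalClosure K).val.comp x)
  let τ : AlgebraicClosure ℚ ≃ₐ[ℚ] AlgebraicClosure ℚ := e.liftNormal (AlgebraicClosure ℚ)
  have hτ : ∀ z : K, τ z = x z := fun z =>
    AlgEquiv.liftNormal_commutes e (AlgebraicClosure ℚ) z
  apply h τ.symm
  intro z hz
  refine ⟨τ z, ?_, τ.symm_apply_apply z⟩
  have h2 := h1 ⟨z, hz⟩
  rw [← hτ ⟨z, hz⟩] at h2
  exact h2


/-- **Main theorem.**  Every number field which is a fake subfield of some number field is a fake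
subfield of a number field for which the extension splits. -/
theorem main (h : FakeSub F K) :
    ∃ (F' : IntermediateField ℚ (AlgebraicClosure ℚ)) (_ : NumberField F'),
      FakeSub F' K ∧ SplitExt F' K := by
  classical
  obtain ⟨h1, h2⟩ := h
  have hU := fixed_pt K F h1
  have hU' := no_common_pt K F h2
  set L := GalClosure K with hL
  have hnL : NumberField L := galClosure_nf K
  have hgL : IsGalois ℚ L := galClosure_gal K
  set n := Nat.card (L ≃ₐ[ℚ] L) with hn
  have hn0 : n ≠ 0 := Nat.card_pos.ne'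
  have : NeZero n := ⟨hn0⟩
  obtain ⟨M, i1, i2, i3, i4, i5, ε, hε⟩ := step L (CC n)
  have hCn : ∀ c : CC n, c ^ n = 1 := by
    intro c
    apply Multiplicative.toAdd.injective
    funext i
    change n • (Multiplicative.toAdd c) i = 0
    rw [nsmul_eq_mul, CharP.cast_eq_zero, zero_mul]
  have hC3 : Nat.card (CC n) = n ^ 3 := by
    change Nat.card (Fin 3 → ZMod n) = n ^ 3
    rw [Nat.card_fun, Nat.card_zmod, Nat.card_fin]
  -- the embedding of `M`
  let j₀ : M →ₐ[L] AlgebraicClosure ℚ := IsAlgClosed.lift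
  let j : M →ₐ[ℚ] AlgebraicClosure ℚ := RingHom.toRatAlgHom (j₀ : M →+* AlgebraicClosure ℚ)
  have hj : ∀ x : L, j (algebraMap L M x) = x := fun x => j₀.commutes x
  let H : Subgroup (M ≃ₐ[ℚ] M) := (wU (CC n) (imU K F)).comap ε.toMonoidHom
  let F₀ : IntermediateField ℚ M := fixedField H
  let F' : IntermediateField ℚ (AlgebraicClosure ℚ) := F₀.map j
  let e : F₀ ≃ₐ[ℚ] F' := equivMap F₀ j
  have hfdF' : FiniteDimensional ℚ F' := Module.Finite.equiv e.toLinearEquiv
  have hnF' : NumberField F' := nf_of_fd F'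
  have hmemH : ∀ σ : M ≃ₐ[ℚ] M, (∀ y ∈ F₀, σ y = y) ↔ ε σ ∈ wU (CC n) (imU K F) := by
    intro σ
    have h3 : fixingSubgroup F₀ = H := fixingSubgroup_fixedField H
    constructor
    · intro h4
      have h5 : σ ∈ fixingSubgroup F₀ := (mem_fixingSubgroup_iff F₀ σ).2 h4
      rw [h3] at h5
      exact h5
    · intro h4
      have h5 : σ ∈ fixingSubgroup F₀ := by rw [h3]; exact h4
      exact (mem_fixingSubgroup_iff F₀ σ).1 h5
  let ιF : F' →ₐ[ℚ] M := F₀.val.comp (e.symm : F' →ₐ[ℚ] F₀)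
  have hιF : ∀ z : F', j (ιF z) = z := by
    intro z
    obtain ⟨y, rfl⟩ := e.surjective z
    change j (e.symm (e y) : F₀) = _
    rw [e.symm_apply_apply]
    rfl
  have hιF' : ∀ z : F', ιF z ∈ F₀ := fun z => (e.symm z).2
  have hact : ∀ σ : M ≃ₐ[ℚ] M, act σ ιF = ιF ↔ ε σ ∈ wU (CC n) (imU K F) := by
    intro σ
    rw [← hmemH]
    constructor
    · intro h3 y hy
      have h4 := AlgHom.congr_fun h3 (e ⟨y, hy⟩)
      have h5 : ιF (e ⟨y, hy⟩) = y := by
        change ((e.symm (e ⟨y, hy⟩) : F₀) : M) = y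
        rw [e.symm_apply_apply]
      have h6 : σ (ιF (e ⟨y, hy⟩)) = ιF (e ⟨y, hy⟩) := h4
      rw [h5] at h6
      exact h6
    · intro h3
      ext z
      exact h3 _ (hιF' z)
  refine ⟨F', hnF', ⟨?_, ?_⟩, ?_⟩
  · exact locSub_wreath L K (inclusion (le_galClosure K)) (imU K F) hU M n hn (CC n) hCn hC3 ε hε F'
      ιF hact
  · intro σ hσ
    have h3 : ∀ z : K, ∃ y ∈ F₀, σ (j y) = z := by
      intro z
      obtain ⟨w, hw, hw'⟩ := hσ z.2
      obtain ⟨y, hy, rfl⟩ := hw
      exact ⟨y, hy, hw'⟩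
    have h4 : ∀ z : K, (((σ.symm : AlgebraicClosure ℚ →ₐ[ℚ] AlgebraicClosure ℚ).comp K.val) z) ∈ L :=
      fun z => emb_mem K _ z
    let x : K →ₐ[ℚ] L :=
      ((σ.symm : AlgebraicClosure ℚ →ₐ[ℚ] AlgebraicClosure ℚ).comp K.val).codRestrict _ h4
    refine hU' x fun u hu => ?_
    ext z
    obtain ⟨y, hy, hyz⟩ := h3 z
    have h5 : algebraMap L M (x z) = y := by
      apply j.injective
      change j (algebraMap L M (x z)) = j y
      rw [hj]
      change σ.symm z = j y
      rw [← hyz, σ.symm_apply_apply]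
    have h6 : ε (ε.symm ⟨1, u⟩) ∈ wU (CC n) (imU K F) := by
      rw [ε.apply_symm_apply]
      exact ⟨hu, fun _ _ => rfl⟩
    have h7 := (hmemH (ε.symm ⟨1, u⟩)).2 h6 y hy
    have h8 : (ε.symm ⟨1, u⟩).restrictNormal L = u := by
      rw [← hε, ε.apply_symm_apply]
    have h9 := AlgEquiv.restrictNormal_commutes (ε.symm ⟨1, u⟩) L (x z)
    rw [h8, h5, h7, ← h5] at h9
    exact congrArg _ ((algebraMap L M).injective h9)
  · -- the extension splits
    obtain ⟨R, hR⟩ : ∃ R : IntermediateField ℚ (AlgebraicClosure ℚ), R = j.fieldRange := ⟨_, rfl⟩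
    have hjR : ∀ y : M, j y ∈ R := fun y => by rw [hR]; exact ⟨y, rfl⟩
    let j' : M →ₐ[ℚ] R := j.codRestrict R.toSubalgebra hjR
    have hj'b : Function.Bijective j' := by
      constructor
      · exact j'.toRingHom.injective
      · rintro ⟨z, hz⟩
        have hz' := hz
        rw [hR] at hz'
        obtain ⟨y, hy⟩ := hz'
        exact ⟨y, Subtype.ext hy⟩
    let ej : M ≃ₐ[ℚ] R := AlgEquiv.ofBijective j' hj'b
    have hjn : Normal ℚ R := Normal.of_algEquiv ej
    have hLj : L ≤ R := fun z hz => by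
      have := hjR (algebraMap L M ⟨z, hz⟩)
      rw [hj] at this
      exact this
    have hFj : F' ≤ R := by
      rintro _ ⟨y, -, rfl⟩
      exact hjR y
    have hFj' : GalClosure F' ≤ R :=
      (@normalClosure_le_iff_of_normal ℚ (AlgebraicClosure ℚ) _ _ _ _ F' R hjn).2 hFj
    set N := L ⊔ GalClosure F' with hN
    have hNj : N ≤ R := sup_le hLj hFj'
    have hNn : Normal ℚ N := normal_sup ..
    let i : N →ₐ[ℚ] M := (ej.symm : R →ₐ[ℚ] M).comp (inclusion hNj)
    have hi : ∀ z : N, j (i z) = z := by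
      intro z
      have h3 := AlgEquiv.apply_symm_apply ej (inclusion hNj z)
      exact congrArg (fun y : R => (y : AlgebraicClosure ℚ)) h3
    have hiL : ∀ x : L, i (inclusion (le_sup_left : L ≤ N) x) = algebraMap L M x := by
      intro x
      apply j.injective
      change j _ = j _
      rw [hi, hj]
      rfl
    let _ : Algebra N M := (i : N →+* M).toAlgebra
    have : IsScalarTower ℚ N M := IsScalarTower.of_algebraMap_eq fun x => (i.commutes x).symm
    let ρ : (M ≃ₐ[ℚ] M) →* (N ≃ₐ[ℚ] N) := AlgEquiv.restrictNormalHom N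
    have hρ : ∀ (τ : M ≃ₐ[ℚ] M) (z : N), i (ρ τ z) = τ (i z) := fun τ z =>
      AlgEquiv.restrictNormal_commutes τ N z
    let s : (L ≃ₐ[ℚ] L) →* (N ≃ₐ[ℚ] N) :=
      (ρ.comp ε.symm.toMonoidHom).comp RegularWreathProduct.inl
    have hs : ∀ (g : L ≃ₐ[ℚ] L) (x : L), s g (inclusion (le_sup_left : L ≤ N) x) =
        inclusion (le_sup_left : L ≤ N) (g x) := by
      intro g x
      apply i.injective
      change i (ρ (ε.symm (RegularWreathProduct.inl g)) _) = i _
      rw [hρ, hiL, hiL, ← AlgEquiv.restrictNormal_commutes, ← hε, ε.apply_symm_apply]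
      rfl
    refine ⟨s.range, fun g => ⟨s g, ⟨⟨g, rfl⟩, hs g⟩, ?_⟩⟩
    rintro _ ⟨⟨g', rfl⟩, hg'⟩
    have h3 : g' = g := by
      ext x
      have h4 := (hs g' x).symm.trans (hg' x)
      exact congrArg (fun y : N => (y : AlgebraicClosure ℚ)) h4
    rw [h3]

end Pool.Agent.R367.FS
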