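import Mathlib

/-!
# Fixed points of elements of a regular wreath product
-/

set_option autoImplicit false

namespace Pool.Agent.R367.FS

variable {C G : Type} [CommGroup C] [Group G]

/-- `U' = {(f, u) : u ∈ U, f = 1 on U}` -/
def wU (C : Type) [CommGroup C] (U : Subgroup G) : Subgroup (C ≀ᵣ G) where
  carrier := {w | w.right ∈ U ∧ ∀ u ∈ U, w.left u = 1}
  mul_mem' := by
    rintro a b ⟨ha, ha'⟩ ⟨hb, hb'⟩
    refine ⟨U.mul_mem ha hb, fun u hu => ?_⟩
    rw [RegularWreathProduct.mul_left, Pi.mul_apply, ha' u hu,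
      hb' _ (U.mul_mem (U.inv_mem ha) hu), mul_one]
  one_mem' := ⟨U.one_mem, fun _ _ => rfl⟩
  inv_mem' := by
    rintro a ⟨ha, ha'⟩
    refine ⟨U.inv_mem ha, fun u hu => ?_⟩
    rw [RegularWreathProduct.inv_left]
    change (a.left (a.right * u))⁻¹ = 1
    rw [ha' _ (U.mul_mem ha hu), inv_one]

theorem mem_wU (U : Subgroup G) (w : C ≀ᵣ G) :
    w ∈ wU C U ↔ w.right ∈ U ∧ ∀ u ∈ U, w.left u = 1 := Iff.rfl

/-- `U'' = {(f, u) : u ∈ U, f constant on U}` -/
def wV (C : Type) [CommGroup C] (U : Subgroup G) : Subgroup (C ≀ᵣ G) where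
  carrier := {w | w.right ∈ U ∧ ∀ u ∈ U, w.left u = w.left 1}
  mul_mem' := by
    rintro a b ⟨ha, ha'⟩ ⟨hb, hb'⟩
    refine ⟨U.mul_mem ha hb, fun u hu => ?_⟩
    rw [RegularWreathProduct.mul_left, Pi.mul_apply, Pi.mul_apply, ha' u hu,
      hb' _ (U.mul_mem (U.inv_mem ha) hu), mul_one, hb' _ (U.inv_mem ha)]
  one_mem' := ⟨U.one_mem, fun _ _ => rfl⟩
  inv_mem' := by
    rintro a ⟨ha, ha'⟩
    refine ⟨U.inv_mem ha, fun u hu => ?_⟩
    rw [RegularWreathProduct.inv_left]
    change (a.left (a.right * u))⁻¹ = (a.left (a.right * 1))⁻¹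
    rw [ha' _ (U.mul_mem ha hu), mul_one, ha' _ ha]

theorem wU_le_wV (U : Subgroup G) : wU C U ≤ wV C U := by
  rintro w ⟨h1, h2⟩
  exact ⟨h1, fun u hu => by rw [h2 u hu, h2 1 U.one_mem]⟩

theorem card_wV [Finite C] [Finite G] (U : Subgroup G) :
    Nat.card (wV C U) = Nat.card C * Nat.card (wU C U) := by
  let f : wV C U →* C :=
    { toFun := fun v => v.1.left 1
      map_one' := rfl
      map_mul' := fun v v' => by
        change (v.1 * v'.1).left 1 = _
        rw [RegularWreathProduct.mul_left, Pi.mul_apply, mul_one, v'.2.2 _ (U.inv_mem v.2.1)] }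
  have hf : Function.Surjective f := by
    intro c
    exact ⟨⟨⟨fun _ => c, 1⟩, U.one_mem, fun _ _ => rfl⟩, rfl⟩
  have hk : f.ker = (wU C U).subgroupOf (wV C U) := by
    ext v
    rw [MonoidHom.mem_ker, Subgroup.mem_subgroupOf, mem_wU]
    constructor
    · intro h
      exact ⟨v.2.1, fun u hu => by rw [v.2.2 u hu]; exact h⟩
    · intro h
      exact h.2 1 U.one_mem
  rw [← Nat.card_congr (Subgroup.subgroupOfEquivOfLe (wU_le_wV (C := C) U)).toEquiv, ← hk,
    ← Nat.card_congr (QuotientGroup.quotientKerEquivOfSurjective f hf).toEquiv]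
  exact Subgroup.card_eq_card_quotient_mul_card_subgroup f.ker

theorem wV_normalizes (U : Subgroup G) (v w : C ≀ᵣ G) (hv : v ∈ wV C U) (hw : w ∈ wU C U) :
    v⁻¹ * w * v ∈ wU C U := by
  obtain ⟨hv1, hv2⟩ := hv
  obtain ⟨hw1, hw2⟩ := hw
  refine ⟨U.mul_mem (U.mul_mem (U.inv_mem hv1) hw1) hv1, fun u hu => ?_⟩
  have h1 : v.right * u ∈ U := U.mul_mem hv1 hu
  rw [RegularWreathProduct.mul_left, Pi.mul_apply, RegularWreathProduct.mul_left, Pi.mul_apply,
    RegularWreathProduct.inv_left, RegularWreathProduct.inv_right,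
    RegularWreathProduct.mul_right, RegularWreathProduct.inv_right]
  change (v.left (v.right * u))⁻¹ * w.left (v.right⁻¹⁻¹ * u) * v.left ((v.right⁻¹ * w.right)⁻¹ * u) = 1
  rw [inv_inv, hw2 _ h1, hv2 _ h1, hv2 _ (U.mul_mem (U.inv_mem (U.mul_mem (U.inv_mem hv1) hw1)) hu),
    mul_one, inv_mul_cancel]

section cosets

variable {W : Type} [Group W] [Finite W]

/-- sets invariant under right multiplication -/
theorem card_of_right (H : Subgroup W) (S : Set W) (hS : ∀ w ∈ S, ∀ h ∈ H, w * h ∈ S) :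
    Nat.card S = Nat.card H * Nat.card {q : W ⧸ H | ∃ w ∈ S, (w : W ⧸ H) = q} := by
  have h1 : S = QuotientGroup.mk ⁻¹' {q : W ⧸ H | ∃ w ∈ S, (w : W ⧸ H) = q} := by
    ext w
    constructor
    · intro hw
      exact ⟨w, hw, rfl⟩
    · rintro ⟨w', hw', h⟩
      have h2 := hS w' hw' _ (QuotientGroup.eq.1 h)
      rwa [mul_inv_cancel_left] at h2
  conv_lhs => rw [h1]
  rw [Nat.card_congr (QuotientGroup.preimageMkEquivSubgroupProdSet H _), Nat.card_prod]

theorem card_fix (H : Subgroup W) (γ : W) :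
    Nat.card {w : W | w⁻¹ * γ * w ∈ H} = Nat.card H * Nat.card {q : W ⧸ H // γ • q = q} := by
  rw [card_of_right H]
  · congr 1
    refine Nat.card_congr (Equiv.subtypeEquivRight fun q => ?_)
    constructor
    · rintro ⟨w, hw, rfl⟩
      rw [MulAction.Quotient.smul_coe, smul_eq_mul, QuotientGroup.eq]
      have h1 := H.inv_mem hw
      simpa [mul_assoc] using h1
    · intro h
      obtain ⟨w, rfl⟩ := QuotientGroup.mk_surjective q
      refine ⟨w, ?_, rfl⟩
      rw [MulAction.Quotient.smul_coe, smul_eq_mul, QuotientGroup.eq] at h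
      have h1 := H.inv_mem h
      simpa [mul_assoc] using h1
  · intro w hw h hh
    have : (w * h)⁻¹ * γ * (w * h) = h⁻¹ * (w⁻¹ * γ * w) * h := by group
    rw [Set.mem_setOf_eq, this]
    exact H.mul_mem (H.mul_mem (H.inv_mem hh) hw) hh

end cosets

variable [Finite C] [Finite G]

instance : Finite (C ≀ᵣ G) :=
  Finite.of_injective (fun w : C ≀ᵣ G => (w.left, w.right)) fun a b h => by
    cases a; cases b; simp only [Prod.mk.injEq] at h; obtain ⟨rfl, rfl⟩ := h; rfl

/-- The number of fixed points of every element of `C ≀ G` on the cosets of `U'` is divisible by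
`|C|`. -/
theorem dvd_fix (U : Subgroup G) (γ : C ≀ᵣ G) :
    Nat.card C ∣ Nat.card {q : (C ≀ᵣ G) ⧸ wU C U // γ • q = q} := by
  have h1 := card_fix (wU C U) γ
  have h2 := card_of_right (wV C U) {w : C ≀ᵣ G | w⁻¹ * γ * w ∈ wU C U} (by
    intro w hw v hv
    have : (w * v)⁻¹ * γ * (w * v) = v⁻¹ * (w⁻¹ * γ * w) * v := by group
    rw [Set.mem_setOf_eq, this]
    exact wV_normalizes U v _ hv hw)
  rw [h1, card_wV, mul_comm (Nat.card C), mul_assoc] at h2
  have h3 := Nat.eq_of_mul_eq_mul_left (Nat.card_pos (α := wU C U)) h2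
  exact ⟨_, h3⟩

/-- An element of `C ≀ G` with nontrivial image in `G` has few fixed points. -/
theorem fix_le (U : Subgroup G) (γ : C ≀ᵣ G) (hγ : γ.right ≠ 1) :
    Nat.card C * Nat.card {q : (C ≀ᵣ G) ⧸ wU C U // γ • q = q} ≤
      Nat.card ((C ≀ᵣ G) ⧸ wU C U) := by
  classical
  have h1 := card_fix (wU C U) γ
  have h2 : Nat.card (C ≀ᵣ G) = Nat.card ((C ≀ᵣ G) ⧸ wU C U) * Nat.card (wU C U) :=
    Subgroup.card_eq_card_quotient_mul_card_subgroup (wU C U)
  have h3 : Nat.card ({w : C ≀ᵣ G | w⁻¹ * γ * w ∈ wU C U} × C) ≤ Nat.card (C ≀ᵣ G) := by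
    refine Nat.card_le_card_of_injective
      (fun q => (⟨Function.update q.1.1.left q.1.1.right (q.1.1.left q.1.1.right * q.2),
        q.1.1.right⟩ : C ≀ᵣ G)) ?_
    rintro ⟨⟨⟨f, x⟩, hw⟩, c⟩ ⟨⟨⟨f', x'⟩, hw'⟩, c'⟩ h
    simp only [RegularWreathProduct.mk.injEq] at h
    obtain ⟨hf, rfl⟩ := h
    -- the condition at `x`
    have key : ∀ (f : G → C), (⟨f, x⟩ : C ≀ᵣ G)⁻¹ * γ * ⟨f, x⟩ ∈ wU C U →
        f x = γ.left x * f (γ.right⁻¹ * x) := by
      intro f hf
      have h5 := hf.2 1 U.one_mem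
      rw [RegularWreathProduct.mul_left, Pi.mul_apply, RegularWreathProduct.mul_left, Pi.mul_apply,
        RegularWreathProduct.inv_left, RegularWreathProduct.inv_right,
        RegularWreathProduct.mul_right, RegularWreathProduct.inv_right] at h5
      change (f (x * 1))⁻¹ * γ.left (x⁻¹⁻¹ * 1) * f ((x⁻¹ * γ.right)⁻¹ * 1) = 1 at h5
      rw [mul_one, mul_one, inv_inv, mul_one, mul_inv_rev, inv_inv, mul_assoc,
        inv_mul_eq_one] at h5
      exact h5
    have hne : γ.right⁻¹ * x ≠ x := by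
      intro h6
      apply hγ
      rw [mul_eq_right, inv_eq_one] at h6
      exact h6
    have h7 : ∀ y, y ≠ x → f y = f' y := by
      intro y hy
      have := congrFun hf y
      rwa [Function.update_of_ne hy, Function.update_of_ne hy] at this
    have h8 : f = f' := by
      funext y
      by_cases hy : y = x
      · rw [hy, key f hw, key f' hw', h7 _ hne]
      · exact h7 y hy
    subst h8
    have h9 := congrFun hf x
    rw [Function.update_self, Function.update_self] at h9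
    have h10 := mul_left_cancel h9
    subst h10
    rfl
  rw [Nat.card_prod, h1, h2, mul_comm (Nat.card ((C ≀ᵣ G) ⧸ wU C U)), mul_assoc] at h3
  have h4 := Nat.le_of_mul_le_mul_left h3 (Nat.card_pos (α := wU C U))
  rwa [mul_comm] at h4

theorem fix_conj (U : Subgroup G) (γ : C ≀ᵣ G) (q : (C ≀ᵣ G) ⧸ wU C U) (h : γ • q = q) :
    ∃ g : G, g⁻¹ * γ.right * g ∈ U := by
  obtain ⟨w, rfl⟩ := QuotientGroup.mk_surjective q
  rw [MulAction.Quotient.smul_coe, smul_eq_mul, QuotientGroup.eq] at h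
  have h1 := (wU C U).inv_mem h
  refine ⟨w.right, ?_⟩
  have h2 := h1.1
  simpa [mul_assoc] using h2

theorem pow_eq_one (n : ℕ) (hG : ∀ g : G, g ^ n = 1) (hC : ∀ c : C, c ^ n = 1) (γ : C ≀ᵣ G) :
    γ ^ (n * n) = 1 := by
  have h1 : ∀ (f : G → C) (m : ℕ), (⟨f, 1⟩ : C ≀ᵣ G) ^ m = ⟨fun x => f x ^ m, 1⟩ := by
    intro f m
    induction m with
    | zero =>
      rw [pow_zero]
      ext x
      · simp
      · rfl
    | succ m ih =>
      rw [pow_succ, ih]
      ext x
      · simp [pow_succ]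
      · simp
  have h2 : γ ^ n = ⟨(γ ^ n).left, 1⟩ := by
    have h3 : (γ ^ n).right = 1 := by
      have := map_pow (RegularWreathProduct.rightHom (D := C) (Q := G)) γ n
      change (γ ^ n).right = γ.right ^ n at this
      rw [this, hG]
    ext x
    · rfl
    · exact h3
  rw [pow_mul, h2, h1]
  ext x
  · simp [hC]
  · rfl

end Pool.Agent.R367.FS
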