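import Pool.Agent.R367.FS.Gal
import Pool.Agent.R367.FS.Wr

/-!
# Periods
-/

set_option autoImplicit false

namespace Pool.Agent.R367.FS

open Function

theorem period_dvd_count {Y : Type} [Finite Y] (T : Y → Y) (E : ℕ)
    (hT : ∀ y, 0 < minimalPeriod T y)
    (h : ∀ l, 0 < l → E ∣ Nat.card {y // T^[l] y = y}) (l : ℕ) :
    E ∣ Nat.card {y // minimalPeriod T y = l} := by
  classical
  have := Fintype.ofFinite Y
  induction l using Nat.strong_induction_on with
  | _ l ih =>
    rcases Nat.eq_zero_or_pos l with rfl | hl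
    · have : IsEmpty {y // minimalPeriod T y = 0} := ⟨fun y => (hT y.1).ne' y.2⟩
      simp
    · have h1 : Nat.card {y // T^[l] y = y} =
          ∑ d ∈ l.divisors, Nat.card {y // minimalPeriod T y = d} := by
        simp only [Nat.card_eq_fintype_card, Fintype.card_subtype]
        rw [← Finset.card_biUnion]
        · congr 1
          ext y
          simp only [Finset.mem_filter, Finset.mem_univ, true_and, Finset.mem_biUnion,
            Nat.mem_divisors]
          constructor
          · intro hy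
            exact ⟨_, ⟨isPeriodicPt_iff_minimalPeriod_dvd.1 hy, hl.ne'⟩, rfl⟩
          · rintro ⟨d, ⟨hd, -⟩, rfl⟩
            exact isPeriodicPt_iff_minimalPeriod_dvd.2 hd
        · intro i _ j _ hij
          rw [Function.onFun, Finset.disjoint_left]
          intro y hy hy'
          simp only [Finset.mem_filter, Finset.mem_univ, true_and] at hy hy'
          exact hij (hy.symm.trans hy')
      have h2 := h l hl
      rw [h1, ← Finset.sum_erase_add _ _ (Nat.mem_divisors_self l hl.ne')] at h2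
      refine (Nat.dvd_add_right (Finset.dvd_sum fun d hd => ?_)).1 h2
      rw [Finset.mem_erase, Nat.mem_divisors] at hd
      exact ih d (lt_of_le_of_ne (Nat.le_of_dvd hl hd.2.1) hd.1)

theorem bad_count {Y : Type} [Finite Y] (T : Y → Y) (e N c : ℕ) (hN : 0 < N)
    (hT : ∀ y, minimalPeriod T y ∣ N)
    (h : ∀ l, ¬ e ∣ l → c * Nat.card {y // T^[l] y = y} ≤ Nat.card Y) :
    c * Nat.card {y // ¬ e ∣ minimalPeriod T y} ≤ N * Nat.card Y := by
  classical
  have := Fintype.ofFinite Y
  have h1 : Nat.card {y // ¬ e ∣ minimalPeriod T y} ≤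
      ∑ l ∈ N.divisors with ¬ e ∣ l, Nat.card {y // T^[l] y = y} := by
    simp only [Nat.card_eq_fintype_card, Fintype.card_subtype]
    refine le_trans (Finset.card_le_card (t := (N.divisors.filter fun l => ¬ e ∣ l).biUnion
      fun l => Finset.univ.filter fun y => T^[l] y = y) ?_) Finset.card_biUnion_le
    intro y hy
    simp only [Finset.mem_filter, Finset.mem_univ, true_and, Finset.mem_biUnion,
      Nat.mem_divisors] at hy ⊢
    exact ⟨_, ⟨⟨hT y, hN.ne'⟩, hy⟩, isPeriodicPt_minimalPeriod T y⟩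
  refine (Nat.mul_le_mul_left c h1).trans ?_
  rw [Finset.mul_sum]
  refine (Finset.sum_le_card_nsmul _ _ (Nat.card Y) fun l hl => h l (Finset.mem_filter.1 hl).2).trans ?_
  rw [smul_eq_mul]
  refine Nat.mul_le_mul_right _ ?_
  refine (Finset.card_filter_le _ _).trans ?_
  exact Nat.card_divisors_le_self N

section emb

open NumberField Module

variable {M : Type} [Field M] [NumberField M] [IsGalois ℚ M]
variable {F : Type} [Field F] [NumberField F]

theorem act_surj (ι : F →ₐ[ℚ] M) (j : F →ₐ[ℚ] M) : ∃ σ : M ≃ₐ[ℚ] M, act σ ι = j := by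
  let e : ι.fieldRange ≃ₐ[ℚ] j.fieldRange :=
    (AlgEquiv.ofInjectiveField ι).symm.trans (AlgEquiv.ofInjectiveField j)
  refine ⟨e.liftNormal M, ?_⟩
  ext x
  have h1 := AlgEquiv.liftNormal_commutes e M (AlgEquiv.ofInjectiveField ι x)
  have h2 : e (AlgEquiv.ofInjectiveField ι x) = AlgEquiv.ofInjectiveField j x := by
    change AlgEquiv.ofInjectiveField j ((AlgEquiv.ofInjectiveField ι).symm
      (AlgEquiv.ofInjectiveField ι x)) = _
    rw [AlgEquiv.symm_apply_apply]
  rw [h2] at h1
  exact h1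

/-- the embeddings as cosets -/
theorem emb_cosets {W : Type} [Group W] (ε : (M ≃ₐ[ℚ] M) ≃* W) (H : Subgroup W) (ι : F →ₐ[ℚ] M)
    (hι : ∀ σ : M ≃ₐ[ℚ] M, act σ ι = ι ↔ ε σ ∈ H) :
    ∃ f : (F →ₐ[ℚ] M) ≃ (W ⧸ H), ∀ γ y, f (act γ y) = ε γ • f y := by
  have h1 : ∀ w w' : W, act (ε.symm w) ι = act (ε.symm w') ι ↔ w⁻¹ * w' ∈ H := by
    intro w w'
    rw [← ε.apply_symm_apply (w⁻¹ * w'), ← hι]
    constructor
    · intro h
      rw [map_mul, map_inv]
      ext x
      have h2 := AlgHom.congr_fun h x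
      rw [act_apply, act_apply] at h2
      rw [act_apply]
      change (ε.symm w)⁻¹ (ε.symm w' (ι x)) = _
      rw [← h2]
      exact AlgEquiv.symm_apply_apply _ _
    · intro h
      rw [map_mul, map_inv] at h
      ext x
      have h2 := AlgHom.congr_fun h x
      rw [act_apply] at h2
      rw [act_apply, act_apply]
      conv_lhs => rw [← h2]
      change ε.symm w ((ε.symm w)⁻¹ (ε.symm w' (ι x))) = _
      exact AlgEquiv.apply_symm_apply _ _
  let g : W ⧸ H → (F →ₐ[ℚ] M) := Quotient.lift (fun w => act (ε.symm w) ι) (by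
    intro w w' h
    exact (h1 w w').2 (QuotientGroup.leftRel_apply.1 h))
  have hg : ∀ w : W, g (w : W ⧸ H) = act (ε.symm w) ι := fun w => rfl
  have hb : Function.Bijective g := by
    constructor
    · intro q q' h
      obtain ⟨w, rfl⟩ := QuotientGroup.mk_surjective q
      obtain ⟨w', rfl⟩ := QuotientGroup.mk_surjective q'
      rw [hg, hg, h1] at h
      exact QuotientGroup.eq.2 h
    · intro j
      obtain ⟨σ, hσ⟩ := act_surj ι j
      refine ⟨(ε σ : W), ?_⟩
      rw [hg, ε.symm_apply_apply, hσ]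
  refine ⟨(Equiv.ofBijective g hb).symm, fun γ y => ?_⟩
  rw [Equiv.symm_apply_eq]
  obtain ⟨q, rfl⟩ := (Equiv.ofBijective g hb).surjective y
  rw [Equiv.symm_apply_apply]
  obtain ⟨w, rfl⟩ := QuotientGroup.mk_surjective q
  rw [MulAction.Quotient.smul_coe, smul_eq_mul, Equiv.ofBijective_apply, Equiv.ofBijective_apply,
    hg, hg, map_mul, ε.symm_apply_apply]
  rfl

end emb

end Pool.Agent.R367.FS
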